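import Pool.Agent.Q239.RT.Gen
import Pool.Agent.TH404.Tor.Final

/-!
# Sets whose fibres have a bounded number of elements
-/

set_option autoImplicit false

namespace Q239.RT

open Finset
open scoped Pointwise

variable {G Γ : Type*} [DecidableEq G] [DecidableEq Γ] [AddCommGroup G] [AddCommGroup Γ] {d : ℕ}

theorem fibre_mono (φ : Fin d → (G →+ Γ)) {B A : Finset G} (h : B ⊆ A) (b : G) (k : Fin d) :
    fibre φ B b k ⊆ fibre φ A b k :=
  image_subset_image (filter_subset_filter _ h)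

theorem kfib_mono (φ : Fin d → (G →+ Γ)) {B A : Finset G} (h : B ⊆ A) (b : G) :
    kfib φ B b ⊆ kfib φ A b := filter_subset_filter _ h

theorem big_coset [IsAddTorsionFree Γ] (φ : Fin d → (G →+ Γ)) (A : Finset G) (hA : A.Nonempty)
    (K : ℝ) (hK : ((A + A).card : ℝ) ≤ K * A.card) (M : ℕ)
    (hM : ∀ a ∈ A, ∀ k, (fibre φ A a k).card ≤ M) :
    ∃ b ∈ A, (A.card : ℝ) ≤ (2 * K) ^ (18 + 31 * (Nat.log 2 M + 1)) * (kfib φ A b).card := by
  have hA0 : (0:ℝ) < A.card := by exact_mod_cast hA.card_pos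
  have hAA : (A.card : ℝ) ≤ (A + A).card := by exact_mod_cast card_le_card_add_right hA
  have hK1 : 1 ≤ K := by
    by_contra h
    push Not at h
    nlinarith
  have hK0 : 0 < K := by linarith
  have h2K : 1 ≤ 2 * K := by linarith
  obtain ⟨B, hBA, n, m, hB, h3, h3', h4, h5⟩ := exists_gen φ A hA K hK
  have e18 : (4:ℝ) ^ 9 * K ^ 18 = (2 * K) ^ 18 := by rw [mul_pow]; norm_num
  rw [e18] at h5
  obtain ⟨r1, -, r3, -⟩ := rigid_gen φ B n m hB h3 h3' _ h5
  obtain ⟨b, hb⟩ := hB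
  obtain ⟨s, hs⟩ : ∃ s, s = (univ.filter (fun k => 2 ≤ n k)).card := ⟨_, rfl⟩
  rw [← hs, Real.log_pow] at r3
  have hn : ∀ k, n k ≤ M := by
    intro k
    rw [← h3 b hb k]
    exact (card_le_card (fibre_mono φ hBA b k)).trans (hM b (hBA hb) k)
  have h2s : (2:ℝ) ^ s ≤ (2 * K) ^ 31 := by
    refine (Real.log_le_log_iff (by positivity) (by positivity)).1 ?_
    rw [Real.log_pow, Real.log_pow]
    have e1 : 18 * Real.log 2 ≤ 31 * Real.log (3 / 2) := by
      have : Real.log ((2:ℝ) ^ 18) ≤ Real.log ((3 / 2 : ℝ) ^ 31) :=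
        Real.log_le_log (by norm_num) (by norm_num)
      rw [Real.log_pow, Real.log_pow] at this
      push_cast at this
      linarith
    have e2 : 0 < Real.log (3 / 2) := Real.log_pos (by norm_num)
    have e3 : 0 ≤ Real.log (2 * K) := Real.log_nonneg h2K
    push_cast at r3 ⊢
    have e4 : (s * Real.log 2) * Real.log (3 / 2) ≤ (31 * Real.log (2 * K)) * Real.log (3 / 2) := by
      calc (s * Real.log 2) * Real.log (3 / 2) = (s * Real.log (3 / 2)) * Real.log 2 := by ring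
        _ ≤ (18 * Real.log (2 * K)) * Real.log 2 :=
          mul_le_mul_of_nonneg_right r3 (Real.log_nonneg (by norm_num))
        _ = (18 * Real.log 2) * Real.log (2 * K) := by ring
        _ ≤ (31 * Real.log (3 / 2)) * Real.log (2 * K) := mul_le_mul_of_nonneg_right e1 e3
        _ = (31 * Real.log (2 * K)) * Real.log (3 / 2) := by ring
    exact le_of_mul_le_mul_right e4 e2
  obtain ⟨l, hl⟩ : ∃ l, l = Nat.log 2 M + 1 := ⟨_, rfl⟩
  have hMl : (M : ℝ) ≤ 2 ^ l := by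
    rw [hl]
    exact_mod_cast (Nat.lt_pow_succ_log_self (by norm_num) M).le
  have hprod : (∏ k, (n k : ℝ)) ≤ (2 * K) ^ (31 * l) := by
    have e1 : (∏ k, (n k : ℝ)) ≤ ∏ k, (if 2 ≤ n k then (M : ℝ) else 1) := by
      refine prod_le_prod (fun k _ => Nat.cast_nonneg _) (fun k _ => ?_)
      split_ifs with h
      · exact_mod_cast hn k
      · have : n k ≤ 1 := by omega
        exact_mod_cast this
    have e2 : ∏ k, (if 2 ≤ n k then (M : ℝ) else 1) = (M : ℝ) ^ s := by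
      rw [prod_ite, hs]; simp
    calc (∏ k, (n k : ℝ)) ≤ (M : ℝ) ^ s := by rw [← e2]; exact e1
      _ ≤ (2 ^ l) ^ s := pow_le_pow_left₀ (Nat.cast_nonneg _) hMl s
      _ = (2 ^ s) ^ l := by rw [← pow_mul, ← pow_mul, mul_comm]
      _ ≤ ((2 * K) ^ 31) ^ l := pow_le_pow_left₀ (by positivity) h2s l
      _ = (2 * K) ^ (31 * l) := by rw [← pow_mul]
  refine ⟨b, hBA hb, ?_⟩
  rw [← hl]
  have hm : (m : ℝ) ≤ (kfib φ A b).card := by
    rw [← h3' b hb]
    exact_mod_cast card_le_card (kfib_mono φ hBA b)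
  have hBc : (B.card : ℝ) = m * ∏ k, (n k : ℝ) := by rw [r1]; push_cast; ring
  have e17 : (4:ℝ) ^ 9 * K ^ 17 ≤ (2 * K) ^ 18 := by
    rw [← e18]
    exact mul_le_mul_of_nonneg_left (pow_le_pow_right₀ hK1 (by norm_num)) (by norm_num)
  have hp0 : (0:ℝ) ≤ ∏ k, (n k : ℝ) := prod_nonneg (fun k _ => Nat.cast_nonneg _)
  calc (A.card : ℝ) ≤ 4 ^ 9 * K ^ 17 * B.card := h4
    _ ≤ (2 * K) ^ 18 * B.card := mul_le_mul_of_nonneg_right e17 (Nat.cast_nonneg _)
    _ = (2 * K) ^ 18 * (m * ∏ k, (n k : ℝ)) := by rw [hBc]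
    _ ≤ (2 * K) ^ 18 * ((kfib φ A b).card * (2 * K) ^ (31 * l)) :=
      mul_le_mul_of_nonneg_left (mul_le_mul hm hprod hp0 (Nat.cast_nonneg _)) (by positivity)
    _ = (2 * K) ^ (18 + 31 * l) * (kfib φ A b).card := by rw [pow_add]; ring

theorem bounded_fibres [IsAddTorsionFree Γ] (φ : Fin d → (G →+ Γ)) (r : ℕ) (hr : 0 < r)
    (htor : ∀ x, (∀ k, φ k x = 0) → r • x = 0) (A : Finset G) (hA : A.Nonempty)
    (K : ℝ) (hK : ((A + A).card : ℝ) ≤ K * A.card) (M : ℕ)
    (hM : ∀ a ∈ A, ∀ k, (fibre φ A a k).card ≤ M) :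
    ∃ (H : AddSubgroup G) (T : Finset G), Finite H ∧ Nat.card H ≤ A.card ∧
      (T.card : ℝ) ≤ (2 * K) ^ (4100550 * (Nat.log 2 M + 1) * (Nat.log 2 r + 1)) ∧
      ∀ a ∈ A, ∃ t ∈ T, a - t ∈ H := by
  have hA0 : (0:ℝ) < A.card := by exact_mod_cast hA.card_pos
  have hAA : (A.card : ℝ) ≤ (A + A).card := by exact_mod_cast card_le_card_add_right hA
  have hK1 : 1 ≤ K := by
    by_contra h
    push Not at h
    nlinarith
  have hK0 : 0 < K := by linarith
  have h2K : 1 ≤ 2 * K := by linarith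
  obtain ⟨b, hbA, hb⟩ := big_coset φ A hA K hK M hM
  obtain ⟨p, hp⟩ : ∃ p, p = 18 + 31 * (Nat.log 2 M + 1) := ⟨_, rfl⟩
  rw [← hp] at hb
  obtain ⟨A0, hA0'⟩ : ∃ A0, A0 = kfib φ A b := ⟨_, rfl⟩
  rw [← hA0'] at hb
  have hA0A : A0 ⊆ A := by rw [hA0']; exact filter_subset _ _
  have hbA0 : b ∈ A0 := by rw [hA0']; exact mem_filter.2 ⟨hbA, fun _ => rfl⟩
  obtain ⟨N, hN⟩ : ∃ N : AddSubgroup G, N = (embH φ).ker := ⟨_, rfl⟩
  have hmemN : ∀ x, x ∈ N ↔ ∀ k, φ k x = 0 := by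
    intro x
    rw [hN, AddMonoidHom.mem_ker]
    constructor
    · intro h k; exact congrFun h k
    · intro h; exact funext h
  have hA0N : ∀ x ∈ A0, x - b ∈ N := by
    intro x hx
    rw [hA0'] at hx
    rw [hmemN]
    intro k
    rw [map_sub, (mem_filter.1 hx).2 k, sub_self]
  obtain ⟨A1, hA1⟩ : ∃ A1 : Finset N, A1 = (A0.image (fun x => x - b)).preimage N.subtype
    (N.subtype_injective.injOn) := ⟨_, rfl⟩
  have himg : A1.image N.subtype = A0.image (fun x => x - b) := by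
    classical
    ext z
    rw [mem_image]
    constructor
    · rintro ⟨y, hy, rfl⟩
      rw [hA1] at hy
      exact mem_preimage.1 hy
    · intro hz
      obtain ⟨x, hx, rfl⟩ := mem_image.1 hz
      exact ⟨⟨x - b, hA0N x hx⟩, by rw [hA1]; exact mem_preimage.2 hz, rfl⟩
  have hc1 : A1.card = A0.card := by
    have e1 := congrArg Finset.card himg
    rw [card_image_of_injective _ N.subtype_injective,
      card_image_of_injective _ (sub_left_injective)] at e1
    exact e1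
  have hA1ne : A1.Nonempty := by
    rw [← card_pos, hc1]; exact card_pos.2 ⟨b, hbA0⟩
  have hsub : (A1 + A1).card ≤ (A + A).card := by
    have e1 : (A1 + A1).image N.subtype = A0.image (fun x => x - b) + A0.image (fun x => x - b) := by
      rw [image_add, himg]
    have e2 : A0.image (fun x => x - b) + A0.image (fun x => x - b) ⊆
        (A0 + A0).image (fun x => x - b - b) := by
      intro z hz
      obtain ⟨u, hu, v, hv, rfl⟩ := mem_add.1 hz
      obtain ⟨x, hx, rfl⟩ := mem_image.1 hu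
      obtain ⟨y, hy, rfl⟩ := mem_image.1 hv
      exact mem_image.2 ⟨x + y, add_mem_add hx hy, by abel⟩
    calc (A1 + A1).card = ((A1 + A1).image N.subtype).card :=
          (card_image_of_injective _ N.subtype_injective).symm
      _ ≤ ((A0 + A0).image (fun x => x - b - b)).card := by rw [e1]; exact card_le_card e2
      _ ≤ (A0 + A0).card := card_image_le
      _ ≤ (A + A).card := card_le_card (add_subset_add hA0A hA0A)
  have hAb : (A.card : ℝ) ≤ (2 * K) ^ p * A0.card := hb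
  have hK' : ((A1 + A1).card : ℝ) ≤ (K * (2 * K) ^ p) * A1.card := by
    calc ((A1 + A1).card : ℝ) ≤ (A + A).card := by exact_mod_cast hsub
      _ ≤ K * A.card := hK
      _ ≤ K * ((2 * K) ^ p * A0.card) := mul_le_mul_of_nonneg_left hAb hK0.le
      _ = (K * (2 * K) ^ p) * A1.card := by rw [hc1]; ring
  obtain ⟨H', T', hH', hcH', hT', hcov'⟩ := Pool.Agent.TH404.Tor.upper r hr (by
    intro x
    have h1 := htor x.1 ((hmemN x.1).1 x.2)
    exact Subtype.ext (by simpa using h1)) (K * (2 * K) ^ p) A1 hA1ne hK'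
  obtain ⟨q, hq⟩ : ∃ q, q = 41005 * (Nat.log 2 r + 1) := ⟨_, rfl⟩
  rw [← hq] at hT'
  have e2K : 2 * (K * (2 * K) ^ p) = (2 * K) ^ (p + 1) := by rw [pow_succ]; ring
  rw [e2K, ← pow_mul] at hT'
  -- Ruzsa covering
  have hcovR : ((A + A0).card : ℝ) ≤ (2 * K) ^ (p + 1) * A0.card := by
    calc ((A + A0).card : ℝ) ≤ (A + A).card := by
          exact_mod_cast card_le_card (add_subset_add_left hA0A)
      _ ≤ K * A.card := hK
      _ ≤ K * ((2 * K) ^ p * A0.card) := mul_le_mul_of_nonneg_left hAb hK0.le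
      _ ≤ (2 * K) * ((2 * K) ^ p * A0.card) :=
        mul_le_mul_of_nonneg_right (by linarith) (by positivity)
      _ = (2 * K) ^ (p + 1) * A0.card := by rw [pow_succ]; ring
  obtain ⟨F, hFA, hFc, hF⟩ := ruzsa_covering_add ⟨b, hbA0⟩ hcovR
  obtain ⟨T1, hT1⟩ : ∃ T1, T1 = T'.image N.subtype := ⟨_, rfl⟩
  have hT1c : (T1.card : ℝ) ≤ (2 * K) ^ ((p + 1) * q) := by
    rw [hT1]
    refine le_trans ?_ hT'
    exact_mod_cast card_image_le
  have hHfin : Finite (H'.map N.subtype) := by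
    have : ((H' : Set N)).Finite := Set.toFinite _
    exact (this.image N.subtype).subset (by rw [AddSubgroup.coe_map])
  have hHcard : Nat.card (H'.map N.subtype) = Nat.card H' :=
    (Nat.card_congr (H'.equivMapOfInjective N.subtype N.subtype_injective).toEquiv).symm
  refine ⟨H'.map N.subtype,
    ((F ×ˢ (T1 ×ˢ T1)).image (fun x => x.1 + (x.2.1 - x.2.2))), hHfin, ?_, ?_, ?_⟩
  · rw [hHcard]
    refine hcH'.trans ?_
    rw [hc1]
    exact card_le_card hA0A
  · have h1 : ((((F ×ˢ (T1 ×ˢ T1)).image (fun x => x.1 + (x.2.1 - x.2.2))).card : ℕ) : ℝ) ≤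
        F.card * (T1.card * T1.card) := by
      have : ((F ×ˢ (T1 ×ˢ T1)).image (fun x => x.1 + (x.2.1 - x.2.2))).card ≤
          F.card * (T1.card * T1.card) := by
        refine card_image_le.trans (le_of_eq ?_)
        rw [card_product, card_product]
      exact_mod_cast this
    have h2 : (F.card : ℝ) * (T1.card * T1.card) ≤
        (2 * K) ^ (p + 1) * ((2 * K) ^ ((p + 1) * q) * (2 * K) ^ ((p + 1) * q)) := by
      gcongr
    have h3 : (2 * K) ^ (p + 1) * ((2 * K) ^ ((p + 1) * q) * (2 * K) ^ ((p + 1) * q)) =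
        (2 * K) ^ ((p + 1) * (2 * q + 1)) := by
      rw [← pow_add, ← pow_add]; congr 1; ring
    have h4 : (p + 1) * (2 * q + 1) ≤ 4100550 * (Nat.log 2 M + 1) * (Nat.log 2 r + 1) := by
      rw [hp, hq]
      have e1 : 18 + 31 * (Nat.log 2 M + 1) + 1 ≤ 50 * (Nat.log 2 M + 1) := by omega
      have e2 : 2 * (41005 * (Nat.log 2 r + 1)) + 1 ≤ 82011 * (Nat.log 2 r + 1) := by omega
      calc (18 + 31 * (Nat.log 2 M + 1) + 1) * (2 * (41005 * (Nat.log 2 r + 1)) + 1)
          ≤ (50 * (Nat.log 2 M + 1)) * (82011 * (Nat.log 2 r + 1)) := Nat.mul_le_mul e1 e2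
        _ = 4100550 * (Nat.log 2 M + 1) * (Nat.log 2 r + 1) := by ring
    exact (h1.trans (h2.trans h3.le)).trans (pow_le_pow_right₀ h2K h4)
  · intro a ha
    obtain ⟨f, hf, z, hz, hfz⟩ := mem_add.1 (hF ha)
    obtain ⟨x, hx, y, hy, hxy⟩ := mem_sub.1 hz
    have key : ∀ x ∈ A0, ∃ t ∈ T1, x - b - t ∈ H'.map N.subtype := by
      intro x hx
      have hx1 : (⟨x - b, hA0N x hx⟩ : N) ∈ A1 := by
        rw [hA1]; exact mem_preimage.2 (mem_image_of_mem _ hx)
      obtain ⟨t, ht, hxt⟩ := hcov' _ hx1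
      refine ⟨N.subtype t, by rw [hT1]; exact mem_image_of_mem _ ht, ?_⟩
      have := AddSubgroup.mem_map_of_mem N.subtype hxt
      simpa using this
    obtain ⟨t1, ht1, h1⟩ := key x hx
    obtain ⟨t2, ht2, h2⟩ := key y hy
    refine ⟨f + (t1 - t2), mem_image.2 ⟨(f, (t1, t2)), mem_product.2 ⟨hf, mem_product.2 ⟨ht1, ht2⟩⟩,
      rfl⟩, ?_⟩
    have e : a - (f + (t1 - t2)) = (x - b - t1) - (y - b - t2) := by
      rw [← hfz, ← hxy]; abel
    rw [e]
    exact sub_mem h1 h2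

end Q239.RT
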