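import Pool.Agent.Q239.RT.Tree

/-!
# Homogeneous subtrees of sets with small doubling
-/

set_option autoImplicit false

namespace Q239.RT

open Finset
open scoped Pointwise

theorem S_ind (d N : ℕ) : ∀ D : Finset (Fin d → ℕ),
    S d N (fun x => if x ∈ D then (1:ℝ) else 0) = ((D.filter (fun x => ∀ k, x k < N)).card : ℝ) := by
  induction d with
  | zero =>
    intro D
    have h : D.filter (fun x => ∀ k, x k < N) = D := filter_true_of_mem (fun x _ k => k.elim0)
    rw [h]
    simp only [S]
    split_ifs with h1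
    · have h2 : D = {Fin.elim0} := by
        ext x
        rw [mem_singleton]
        constructor
        · intro _; exact Subsingleton.elim _ _
        · intro _; rwa [Subsingleton.elim x Fin.elim0]
      rw [h2]; simp
    · have h2 : D = ∅ := by
        ext x
        constructor
        · intro hx; exact absurd (by rwa [Subsingleton.elim x Fin.elim0] at hx) h1
        · intro hx; simp at hx
      rw [h2]; simp
  | succ d ih =>
    intro D
    simp only [S]
    have h1 : ∀ j : ℕ, (fun a : Fin d → ℕ => if (Fin.cons j a : Fin (d+1) → ℕ) ∈ D then (1:ℝ) else 0) =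
        (fun a => if a ∈ slice D j then (1:ℝ) else 0) := by
      intro j
      funext a
      simp only [mem_slice]
    rw [← sum_card_slice (D.filter (fun x => ∀ k, x k < N)) (range N)
      (fun x hx => mem_range.2 ((mem_filter.1 hx).2 0))]
    push_cast
    apply sum_congr rfl
    intro j hj
    rw [h1 j, ih]
    congr 2
    ext a
    simp only [mem_filter, mem_slice]
    constructor
    · rintro ⟨h2, h3⟩
      refine ⟨h2, fun k => ?_⟩
      refine Fin.cases ?_ (fun k => ?_) k
      · simpa using mem_range.1 hj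
      · simpa using h3 k
    · rintro ⟨h2, h3⟩
      exact ⟨h2, fun k => by simpa using h3 k.succ⟩

/-- For a non-empty set `D` of natural vectors and a set `E` with the joins of `D` dilated by 4
below it, `|D|^2 ≤ |E| · max ∏ (1 + n_k)`. -/
theorem card_sq_le {d : ℕ} (D E : Finset (Fin d → ℕ)) (hD : D.Nonempty)
    (hE : ∀ x ∈ D, ∀ y ∈ D, ∀ z : Fin d → ℕ, (∀ k, z k ≤ 4 * x k ∨ z k ≤ 4 * y k) → z ∈ E) :
    ∃ n ∈ D, (D.card : ℝ) ^ 2 ≤ E.card * ∏ k, ((1:ℝ) + n k) := by
  obtain ⟨n, hn, hmax⟩ := exists_max_image D (fun n => ∏ k, ((1:ℝ) + n k)) hD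
  refine ⟨n, hn, ?_⟩
  set b : ℝ := ∏ k, ((1:ℝ) + n k) with hb
  have hb0 : 0 ≤ b := prod_nonneg (fun k _ => by positivity)
  obtain ⟨N, hN⟩ : ∃ N : ℕ, ∀ x ∈ D, ∀ k, x k < N := by
    refine ⟨(∑ x ∈ D, ∑ k, x k) + 1, fun x hx k => ?_⟩
    have h1 : x k ≤ ∑ k, x k := single_le_sum (fun _ _ => Nat.zero_le _) (mem_univ k)
    have h2 : ∑ k, x k ≤ ∑ x ∈ D, ∑ k, x k :=
      single_le_sum (f := fun x : Fin d → ℕ => ∑ k, x k) (fun _ _ => Nat.zero_le _) hx
    omega
  have hf : ∀ x : Fin d → ℕ, (if x ∈ D then (1:ℝ) else 0) * ∏ k, ((1:ℝ) + x k) ≤ b := by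
    intro x
    split_ifs with h
    · rw [one_mul]; exact hmax x h
    · rw [zero_mul]; exact hb0
  have key := functional d N (fun x => if x ∈ D then (1:ℝ) else 0)
    (fun x => if x ∈ D then (1:ℝ) else 0) (fun x => if x ∈ E then (1:ℝ) else 0) b b
    (fun x => by positivity) (fun x => by positivity) (fun x => by positivity) hb0 hb0 hf hf
    (by
      intro x y z h
      by_cases hx : x ∈ D
      · by_cases hy : y ∈ D
        · simp [hx, hy, hE x hx y hy z h]
        · simp only [hx, hy, if_true, if_false, mul_zero]; positivity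
      · simp only [hx, if_false, zero_mul]; positivity)
  rw [S_ind, S_ind, filter_true_of_mem hN, Real.sqrt_mul_self hb0] at key
  have h3 : ((E.filter (fun x => ∀ k, x k < 4 * N)).card : ℝ) ≤ E.card := by
    exact_mod_cast card_filter_le _ _
  calc (D.card : ℝ) ^ 2 = D.card * D.card := by ring
    _ ≤ _ := key
    _ ≤ E.card * b := mul_le_mul_of_nonneg_right h3 hb0

section fib

variable {Γ : Type*} [DecidableEq Γ]

/-- the set of `k`-th coordinates of the elements of `B` which agree with `b` before `k` -/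
def fib {d : ℕ} (B : Finset (Fin d → Γ)) (b : Fin d → Γ) (k : Fin d) : Finset Γ :=
  (B.filter (fun x => ∀ j, j < k → x j = b j)).image (fun x => x k)

theorem mem_fib {d : ℕ} (B : Finset (Fin d → Γ)) (b : Fin d → Γ) (k : Fin d) (c : Γ) :
    c ∈ fib B b k ↔ ∃ x ∈ B, (∀ j, j < k → x j = b j) ∧ x k = c := by
  simp only [fib, mem_image, mem_filter, and_assoc]

theorem fib_zero {d : ℕ} (B : Finset (Fin (d+1) → Γ)) (b : Fin (d+1) → Γ) :
    fib B b 0 = B.image (fun x => x 0) := by
  ext c
  rw [mem_fib, mem_image]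
  constructor
  · rintro ⟨x, hx, _, h⟩; exact ⟨x, hx, h⟩
  · rintro ⟨x, hx, h⟩; exact ⟨x, hx, fun j hj => absurd hj (Fin.not_lt_zero j), h⟩

theorem fib_succ {d : ℕ} (B : Finset (Fin (d+1) → Γ)) (b : Fin (d+1) → Γ) (k : Fin d) :
    fib B b k.succ = fib (slice B (b 0)) (Fin.tail b) k := by
  ext c
  rw [mem_fib, mem_fib]
  constructor
  · rintro ⟨x, hx, h1, h2⟩
    have h0 : x 0 = b 0 := h1 0 (Fin.succ_pos k)
    refine ⟨Fin.tail x, ?_, ?_, h2⟩
    · rw [mem_slice, ← h0, Fin.cons_self_tail]; exact hx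
    · intro j hj; exact h1 j.succ (Fin.succ_lt_succ_iff.2 hj)
  · rintro ⟨y, hy, h1, h2⟩
    rw [mem_slice] at hy
    refine ⟨_, hy, ?_, by simpa using h2⟩
    intro j
    refine Fin.cases ?_ (fun j => ?_) j
    · intro _; simp
    · intro hj
      have := h1 j (Fin.succ_lt_succ_iff.1 hj)
      simpa [Fin.tail] using this

theorem card_of_fib (d : ℕ) : ∀ (B : Finset (Fin d → Γ)) (m : Fin d → ℕ), B.Nonempty →
    (∀ b ∈ B, ∀ k, (fib B b k).card = m k) → B.card = ∏ k, m k := by
  induction d with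
  | zero =>
    intro B m hB _
    have h2 : B = univ := by
      ext x
      obtain ⟨y, hy⟩ := hB
      simp only [mem_univ, iff_true]
      rwa [Subsingleton.elim x y]
    rw [h2]; simp
  | succ d ih =>
    intro B m hB h
    obtain ⟨b, hb⟩ := hB
    have h0 : (B.image (fun x => x 0)).card = m 0 := by rw [← fib_zero B b]; exact h b hb 0
    rw [← sum_card_slice B (B.image (fun x => x 0)) (fun x hx => mem_image_of_mem _ hx)]
    have h1 : ∀ c ∈ B.image (fun x => x 0), (slice B c).card = ∏ k : Fin d, m k.succ := by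
      intro c hc
      apply ih (slice B c) (fun k => m k.succ) (slice_nonempty B c hc)
      intro a ha k
      rw [mem_slice] at ha
      have := h _ ha k.succ
      rw [fib_succ] at this
      simpa using this
    rw [sum_congr rfl h1, sum_const, smul_eq_mul, h0, Fin.prod_univ_succ]

theorem sum_lower [AddCommGroup Γ] (d : ℕ) : ∀ (B B' : Finset (Fin d → Γ)) (σ : Fin d → ℕ),
    B.Nonempty → B'.Nonempty →
    (∀ b ∈ B, ∀ b' ∈ B', ∀ k, σ k ≤ (fib B b k + fib B' b' k).card) →
    ∏ k, σ k ≤ (B + B').card := by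
  induction d with
  | zero =>
    intro B B' σ hB hB' _
    have := (hB.add hB').card_pos
    simpa using this
  | succ d ih =>
    intro B B' σ hB hB' h
    obtain ⟨b, hb⟩ := hB
    obtain ⟨b', hb'⟩ := hB'
    set C := B.image (fun x => x 0) with hC
    set C' := B'.image (fun x => x 0) with hC'
    have h0 : σ 0 ≤ (C + C').card := by
      have := h b hb b' hb' 0
      rwa [fib_zero, fib_zero] at this
    rw [← sum_card_slice (B + B') ((B + B').image (fun x => x 0))
      (fun x hx => mem_image_of_mem _ hx)]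
    have h1 : C + C' ⊆ (B + B').image (fun x => x 0) := by
      intro s hs
      obtain ⟨c, hc, e, he, rfl⟩ := mem_add.1 hs
      obtain ⟨x, hx, rfl⟩ := mem_image.1 hc
      obtain ⟨y, hy, rfl⟩ := mem_image.1 he
      exact mem_image.2 ⟨x + y, add_mem_add hx hy, rfl⟩
    have h2 : ∀ s ∈ C + C', ∏ k : Fin d, σ k.succ ≤ (slice (B + B') s).card := by
      intro s hs
      obtain ⟨c, hc, e, he, rfl⟩ := mem_add.1 hs
      have h3 : slice B c + slice B' e ⊆ slice (B + B') (c + e) := by
        intro a ha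
        obtain ⟨p, hp, q, hq, rfl⟩ := mem_add.1 ha
        rw [mem_slice] at hp hq ⊢
        have h4 := add_mem_add hp hq
        have h5 : (Fin.cons c p : Fin (d+1) → Γ) + Fin.cons e q = Fin.cons (c + e) (p + q) := by
          funext k
          refine Fin.cases ?_ (fun k => ?_) k <;> simp
        rwa [h5] at h4
      refine le_trans ?_ (card_le_card h3)
      apply ih _ _ (fun k => σ k.succ) (slice_nonempty B c hc) (slice_nonempty B' e he)
      intro a ha a' ha' k
      rw [mem_slice] at ha ha'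
      have := h _ ha _ ha' k.succ
      rw [fib_succ, fib_succ] at this
      simpa using this
    calc ∏ k, σ k = σ 0 * ∏ k : Fin d, σ k.succ := Fin.prod_univ_succ _
      _ ≤ (C + C').card * ∏ k : Fin d, σ k.succ := Nat.mul_le_mul_right _ h0
      _ = ∑ s ∈ C + C', ∏ k : Fin d, σ k.succ := by rw [sum_const, smul_eq_mul]
      _ ≤ ∑ s ∈ C + C', (slice (B + B') s).card := sum_le_sum h2
      _ ≤ ∑ s ∈ (B + B').image (fun x => x 0), (slice (B + B') s).card :=
          sum_le_sum_of_subset h1

theorem exists_tree (d : ℕ) : ∀ (A : Finset (Fin d → Γ)) (n : Fin d → ℕ), n ∈ Dset d A →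
    ∃ B ⊆ A, B.Nonempty ∧ ∀ b ∈ B, ∀ k, (fib B b k).card = n k + 1 := by
  classical
  induction d with
  | zero =>
    intro A n hn
    rw [Dset_zero] at hn
    exact ⟨A, Subset.refl _, hn, fun b _ k => k.elim0⟩
  | succ d ih =>
    intro A n hn
    rw [Dset_succ] at hn
    obtain ⟨T, hT1, hT2⟩ := exists_subset_card_eq (s := lev d A (Fin.tail n)) (n := n 0 + 1) hn
    have h1 : ∀ c : Γ, ∃ B : Finset (Fin d → Γ), c ∈ T → B ⊆ slice A c ∧ B.Nonempty ∧
        ∀ b ∈ B, ∀ k, (fib B b k).card = Fin.tail n k + 1 := by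
      intro c
      by_cases hc : c ∈ T
      · have h2 := hT1 hc
        simp only [lev, mem_filter] at h2
        obtain ⟨B, hB⟩ := ih _ _ h2.2
        exact ⟨B, fun _ => hB⟩
      · exact ⟨∅, fun h => absurd h hc⟩
    choose F hF using h1
    set B : Finset (Fin (d+1) → Γ) :=
      T.biUnion (fun c => (F c).image (fun a => (Fin.cons c a : Fin (d+1) → Γ))) with hB
    have hmem : ∀ x : Fin (d+1) → Γ, x ∈ B ↔ x 0 ∈ T ∧ Fin.tail x ∈ F (x 0) := by
      intro x
      simp only [hB, mem_biUnion, mem_image]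
      constructor
      · rintro ⟨c, hc, a, ha, rfl⟩
        simpa using ⟨hc, ha⟩
      · rintro ⟨h2, h3⟩
        exact ⟨x 0, h2, Fin.tail x, h3, Fin.cons_self_tail x⟩
    have hsl : ∀ c ∈ T, slice B c = F c := by
      intro c hc
      ext a
      rw [mem_slice, hmem]
      simp [hc]
    have h0 : B.image (fun x => x 0) = T := by
      ext c
      rw [mem_image]
      constructor
      · rintro ⟨x, hx, rfl⟩; exact ((hmem x).1 hx).1
      · intro hc
        obtain ⟨a, ha⟩ := (hF c hc).2.1
        exact ⟨Fin.cons c a, (hmem _).2 (by simpa using ⟨hc, ha⟩), by simp⟩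
    refine ⟨B, ?_, ?_, ?_⟩
    · intro x hx
      have h2 := (hmem x).1 hx
      have h3 := (hF _ h2.1).1 h2.2
      rw [mem_slice, Fin.cons_self_tail] at h3
      exact h3
    · obtain ⟨c, hc⟩ : T.Nonempty := card_pos.1 (by omega)
      obtain ⟨a, ha⟩ := (hF c hc).2.1
      exact ⟨Fin.cons c a, (hmem _).2 (by simpa using ⟨hc, ha⟩)⟩
    · intro b hb k
      have h2 := (hmem b).1 hb
      refine Fin.cases ?_ (fun k => ?_) k
      · rw [fib_zero, h0, hT2]
      · rw [fib_succ, hsl _ h2.1]
        exact (hF _ h2.1).2.2 _ h2.2 k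

end fib

end Q239.RT
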