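import Pool.Agent.Q239.RT.Core

/-!
# Entropies of sums and homogeneous trees
-/

set_option autoImplicit false

namespace Q239.RT

open Finset
open scoped Pointwise

section basic

variable {Γ : Type*} [DecidableEq Γ] [AddCommGroup Γ]

/-- the number of representations of `z` as `x + y` with `x` in `S`, `y` in `T` -/
def rep (S T : Finset Γ) (z : Γ) : ℕ := ((S ×ˢ T).filter (fun p => p.1 + p.2 = z)).card

/-- the Shannon entropy of `x + y` for independent uniform elements `x` of `S` and `y` of `T` -/
noncomputable def ent (S T : Finset Γ) : ℝ :=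
  ∑ z ∈ S + T, Real.negMulLog ((rep S T z : ℝ) / (S.card * T.card))

/-- `|S||T|` times the entropy -/
noncomputable def L (S T : Finset Γ) : ℝ :=
  ∑ x ∈ S, ∑ y ∈ T, Real.log ((S.card * T.card) / rep S T (x + y))

theorem rep_pos {S T : Finset Γ} {x y : Γ} (hx : x ∈ S) (hy : y ∈ T) : 0 < rep S T (x + y) :=
  card_pos.2 ⟨(x, y), mem_filter.2 ⟨mem_product.2 ⟨hx, hy⟩, rfl⟩⟩

theorem rep_le_right (S T : Finset Γ) (z : Γ) : rep S T z ≤ T.card := by
  refine card_le_card_of_injOn (fun p => p.2) (fun p hp => ?_) ?_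
  · exact (mem_product.1 (mem_filter.1 hp).1).2
  · intro p hp q hq h
    replace hp := (mem_filter.1 (mem_coe.1 hp)).2
    replace hq := (mem_filter.1 (mem_coe.1 hq)).2
    have h' : p.2 = q.2 := h
    have h1 : p.1 = q.1 := by
      have : p.1 + p.2 = q.1 + p.2 := by rw [hp, h', hq]
      exact add_right_cancel this
    exact Prod.ext h1 h'

theorem sum_group (S T : Finset Γ) (f : Γ → ℝ) :
    ∑ x ∈ S, ∑ y ∈ T, f (x + y) = ∑ z ∈ S + T, (rep S T z : ℝ) * f z := by
  rw [← sum_product' (f := fun x y => f (x + y)),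
    ← sum_fiberwise_of_maps_to (g := fun p : Γ × Γ => p.1 + p.2) (t := S + T)
      (fun p hp => add_mem_add (mem_product.1 hp).1 (mem_product.1 hp).2)]
  apply sum_congr rfl
  intro z _
  rw [sum_congr rfl (fun p hp => by rw [(mem_filter.1 hp).2] : ∀ p ∈ (S ×ˢ T).filter
    (fun p => p.1 + p.2 = z), f (p.1 + p.2) = f z), sum_const, nsmul_eq_mul]
  rfl

theorem L_eq {S T : Finset Γ} (hS : S.Nonempty) (hT : T.Nonempty) :
    L S T = S.card * T.card * ent S T := by
  have h1 : (0:ℝ) < S.card := by exact_mod_cast hS.card_pos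
  have h2 : (0:ℝ) < T.card := by exact_mod_cast hT.card_pos
  rw [L, sum_group S T (fun z => Real.log ((S.card * T.card) / rep S T z)), ent, mul_sum]
  apply sum_congr rfl
  intro z _
  rw [Real.negMulLog, ← inv_div ((rep S T z : ℝ)) (S.card * T.card), Real.log_inv]
  field_simp

theorem ent_ge {S T : Finset Γ} (hS : S.Nonempty) (hT : T.Nonempty) :
    Real.log S.card ≤ ent S T := by
  have h1 : (0:ℝ) < S.card := by exact_mod_cast hS.card_pos
  have h2 : (0:ℝ) < T.card := by exact_mod_cast hT.card_pos
  have h3 : S.card * T.card * Real.log S.card ≤ L S T := by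
    have : (S.card * T.card * Real.log S.card : ℝ) = ∑ x ∈ S, ∑ y ∈ T, Real.log S.card := by
      rw [sum_const, sum_const]; simp [mul_assoc]
    rw [this]
    refine sum_le_sum fun x hx => sum_le_sum fun y hy => ?_
    have h4 : (0:ℝ) < rep S T (x + y) := by exact_mod_cast rep_pos hx hy
    refine Real.log_le_log h1 ?_
    rw [le_div_iff₀ h4]
    exact mul_le_mul_of_nonneg_left (by exact_mod_cast rep_le_right S T (x + y)) h1.le
  rw [L_eq hS hT] at h3
  exact le_of_mul_le_mul_left h3 (by positivity)

theorem L_nonneg {S T : Finset Γ} (hS : S.Nonempty) (hT : T.Nonempty) : 0 ≤ L S T := by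
  rw [L_eq hS hT]
  have h1 : (1:ℝ) ≤ S.card := by exact_mod_cast hS.card_pos
  have := ent_ge hS hT
  have h2 := Real.log_nonneg h1
  have h3 : 0 ≤ ent S T := h2.trans this
  positivity

theorem L_le {S T : Finset Γ} (hS : S.Nonempty) (hT : T.Nonempty) :
    L S T ≤ S.card * T.card * Real.log (S + T).card := by
  have h1 : (0:ℝ) < S.card := by exact_mod_cast hS.card_pos
  have h2 : (0:ℝ) < T.card := by exact_mod_cast hT.card_pos
  have h3 : (0:ℝ) < (S + T).card := by exact_mod_cast (hS.add hT).card_pos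
  have h4 : ∀ x ∈ S, ∀ y ∈ T, Real.log ((S.card * T.card) / rep S T (x + y)) ≤
      (Real.log (S + T).card - 1) + (S.card * T.card) / (rep S T (x + y) * (S + T).card) := by
    intro x hx y hy
    have h5 : (0:ℝ) < rep S T (x + y) := by exact_mod_cast rep_pos hx hy
    have h6 := Real.log_le_sub_one_of_pos
      (show (0:ℝ) < (S.card * T.card) / (rep S T (x + y) * (S + T).card) by positivity)
    have h7 : Real.log ((S.card * T.card) / (rep S T (x + y) * (S + T).card)) =
        Real.log ((S.card * T.card) / rep S T (x + y)) - Real.log (S + T).card := by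
      rw [← div_div, Real.log_div (by positivity) (by positivity)]
    linarith
  have h8 : ∑ x ∈ S, ∑ y ∈ T, ((Real.log (S + T).card - 1) +
      ((S.card * T.card : ℝ)) / (rep S T (x + y) * (S + T).card)) =
      S.card * T.card * Real.log (S + T).card := by
    rw [sum_group S T (fun z => (Real.log (S + T).card - 1) +
      ((S.card * T.card : ℝ)) / (rep S T z * (S + T).card))]
    have h9 : ∀ z ∈ S + T, (rep S T z : ℝ) * ((Real.log (S + T).card - 1) +
        ((S.card * T.card : ℝ)) / (rep S T z * (S + T).card)) =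
        (rep S T z : ℝ) * (Real.log (S + T).card - 1) + (S.card * T.card : ℝ) / (S + T).card := by
      intro z hz
      obtain ⟨x, hx, y, hy, rfl⟩ := mem_add.1 hz
      have h5 : (0:ℝ) < rep S T (x + y) := by exact_mod_cast rep_pos hx hy
      field_simp
    rw [sum_congr rfl h9, sum_add_distrib, ← sum_group S T (fun _ => Real.log (S + T).card - 1)]
    simp only [sum_const, nsmul_eq_mul]
    field_simp
    ring
  rw [← h8]
  exact sum_le_sum fun x hx => sum_le_sum fun y hy => h4 x hx y hy

end basic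

section step

variable {Γ : Type*} [DecidableEq Γ] [AddCommGroup Γ] {d : ℕ}

theorem sum_slice (B : Finset (Fin (d+1) → Γ)) (f : (Fin (d+1) → Γ) → ℝ) :
    ∑ x ∈ B, f x = ∑ u ∈ B.image (fun x => x 0), ∑ a ∈ slice B u, f (Fin.cons u a) := by
  rw [← sum_fiberwise_of_maps_to (g := fun x : Fin (d+1) → Γ => x 0)
    (t := B.image (fun x => x 0)) (fun x hx => mem_image_of_mem _ hx)]
  apply sum_congr rfl
  intro u _
  rw [slice, sum_image]
  · apply sum_congr rfl
    intro x hx
    rw [← (mem_filter.1 hx).2, Fin.cons_self_tail]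
  · intro x hx y hy h
    replace hx := mem_filter.1 (mem_coe.1 hx)
    replace hy := mem_filter.1 (mem_coe.1 hy)
    rw [← Fin.cons_self_tail x, ← Fin.cons_self_tail y, hx.2, hy.2]
    congr 1

theorem cons_add_cons (u v : Γ) (a b : Fin d → Γ) :
    (Fin.cons u a : Fin (d+1) → Γ) + Fin.cons v b = Fin.cons (u + v) (a + b) := by
  funext k
  refine Fin.cases ?_ (fun k => ?_) k <;> simp

theorem sum_rep_le (B B' : Finset (Fin (d+1) → Γ)) (N N' : ℕ)
    (hN : ∀ u ∈ B.image (fun x => x 0), (slice B u).card = N)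
    (hN' : ∀ u ∈ B'.image (fun x => x 0), (slice B' u).card = N') (z : Γ)
    (W : Finset (Fin d → Γ)) :
    ∑ w ∈ W, rep B B' (Fin.cons z w) ≤
      rep (B.image (fun x => x 0)) (B'.image (fun x => x 0)) z * (N * N') := by
  set F := (B ×ˢ B').filter (fun p => p.1 0 + p.2 0 = z) with hF
  have h1 : ∑ w ∈ W, rep B B' (Fin.cons z w) ≤ F.card := by
    set F' := F.filter (fun p => (Fin.tail (p.1 + p.2) : Fin d → Γ) ∈ W) with hF'
    have h2 : F'.card =
        ∑ w ∈ W, (F'.filter (fun p => (Fin.tail (p.1 + p.2) : Fin d → Γ) = w)).card :=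
      card_eq_sum_card_fiberwise (fun p hp => (mem_filter.1 hp).2)
    have h3 : F'.card ≤ F.card := card_filter_le _ _
    refine le_trans ?_ h3
    rw [h2]
    refine sum_le_sum fun w hw => ?_
    rw [rep]
    apply card_le_card
    intro p hp
    obtain ⟨hp1, hp2⟩ := mem_filter.1 hp
    have h4 : p.1 0 + p.2 0 = z := by
      have := congrFun hp2 0
      simpa using this
    have h5 : (Fin.tail (p.1 + p.2) : Fin d → Γ) = w := by rw [hp2, Fin.tail_cons]
    rw [hF', hF, mem_filter, mem_filter, mem_filter]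
    exact ⟨⟨⟨hp1, h4⟩, by rw [h5]; exact hw⟩, h5⟩
  refine h1.trans ?_
  rw [card_eq_sum_card_fiberwise (f := fun p : (Fin (d+1) → Γ) × (Fin (d+1) → Γ) => (p.1 0, p.2 0))
    (t := ((B.image (fun x => x 0)) ×ˢ (B'.image (fun x => x 0))).filter
      (fun q => q.1 + q.2 = z))]
  · rw [rep, ← smul_eq_mul, ← sum_const]
    refine sum_le_sum fun q hq => ?_
    obtain ⟨hq1, _⟩ := mem_filter.1 hq
    obtain ⟨hq1, hq2⟩ := mem_product.1 hq1
    have h6 : (F.filter (fun p => (p.1 0, p.2 0) = q)) ⊆
        (B.filter (fun x => x 0 = q.1)) ×ˢ (B'.filter (fun x => x 0 = q.2)) := by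
      intro p hp
      obtain ⟨hp1, hp2⟩ := mem_filter.1 hp
      rw [hF] at hp1
      obtain ⟨hp1, _⟩ := mem_filter.1 hp1
      obtain ⟨hp1, hp3⟩ := mem_product.1 hp1
      exact mem_product.2 ⟨mem_filter.2 ⟨hp1, congrArg Prod.fst hp2⟩,
        mem_filter.2 ⟨hp3, congrArg Prod.snd hp2⟩⟩
    refine (card_le_card h6).trans ?_
    rw [card_product, ← card_slice, ← card_slice, hN _ hq1, hN' _ hq2]
  · intro p hp
    replace hp := mem_coe.1 hp
    rw [hF] at hp
    obtain ⟨hp1, hp2⟩ := mem_filter.1 hp
    obtain ⟨hp1, hp3⟩ := mem_product.1 hp1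
    exact mem_coe.2 (mem_filter.2 ⟨mem_product.2 ⟨mem_image_of_mem _ hp1, mem_image_of_mem _ hp3⟩,
      hp2⟩)

theorem step_uv (B B' : Finset (Fin (d+1) → Γ)) (N N' : ℕ)
    (hN : ∀ u ∈ B.image (fun x => x 0), (slice B u).card = N)
    (hN' : ∀ u ∈ B'.image (fun x => x 0), (slice B' u).card = N')
    (u v : Γ) (hu : u ∈ B.image (fun x => x 0)) (hv : v ∈ B'.image (fun x => x 0)) :
    N * N' * Real.log (((B.image (fun x => x 0)).card * (B'.image (fun x => x 0)).card) /
        rep (B.image (fun x => x 0)) (B'.image (fun x => x 0)) (u + v)) +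
      L (slice B u) (slice B' v) ≤
    ∑ a ∈ slice B u, ∑ a' ∈ slice B' v,
      Real.log ((B.card * B'.card) / rep B B' (Fin.cons u a + Fin.cons v a')) := by
  set C := B.image (fun x => x 0) with hC
  set C' := B'.image (fun x => x 0) with hC'
  have hcB : (B.card : ℝ) = C.card * N := by
    have := sum_card_slice B C (fun x hx => mem_image_of_mem _ hx)
    rw [sum_congr rfl hN, sum_const, smul_eq_mul] at this
    rw [← this]; push_cast; ring
  have hcB' : (B'.card : ℝ) = C'.card * N' := by
    have := sum_card_slice B' C' (fun x hx => mem_image_of_mem _ hx)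
    rw [sum_congr rfl hN', sum_const, smul_eq_mul] at this
    rw [← this]; push_cast; ring
  have hN0 : (0:ℝ) < N := by
    rw [← hN u hu]; exact_mod_cast (slice_nonempty B u hu).card_pos
  have hN0' : (0:ℝ) < N' := by
    rw [← hN' v hv]; exact_mod_cast (slice_nonempty B' v hv).card_pos
  have hC0 : (0:ℝ) < C.card := by exact_mod_cast card_pos.2 ⟨u, hu⟩
  have hC0' : (0:ℝ) < C'.card := by exact_mod_cast card_pos.2 ⟨v, hv⟩
  have hr1 : (0:ℝ) < rep C C' (u + v) := by exact_mod_cast rep_pos hu hv
  have hpt : ∀ a ∈ slice B u, ∀ a' ∈ slice B' v,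
      Real.log ((C.card * C'.card) / rep C C' (u + v)) +
        Real.log ((N * N') / rep (slice B u) (slice B' v) (a + a')) ≤
      Real.log ((B.card * B'.card) / rep B B' (Fin.cons u a + Fin.cons v a')) +
        (rep B B' (Fin.cons (u + v) (a + a')) /
          (rep C C' (u + v) * rep (slice B u) (slice B' v) (a + a')) - 1) := by
    intro a ha a' ha'
    have hr2 : (0:ℝ) < rep (slice B u) (slice B' v) (a + a') := by exact_mod_cast rep_pos ha ha'
    have hr : (0:ℝ) < rep B B' (Fin.cons u a + Fin.cons v a') := by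
      exact_mod_cast rep_pos ((mem_slice B u a).1 ha) ((mem_slice B' v a').1 ha')
    rw [← cons_add_cons]
    have h1 := Real.log_le_sub_one_of_pos
      (show (0:ℝ) < rep B B' (Fin.cons u a + Fin.cons v a') /
        (rep C C' (u + v) * rep (slice B u) (slice B' v) (a + a')) by positivity)
    have h2 : Real.log (rep B B' (Fin.cons u a + Fin.cons v a') /
        (rep C C' (u + v) * rep (slice B u) (slice B' v) (a + a'))) =
        Real.log ((C.card * C'.card) / rep C C' (u + v)) +
        Real.log ((N * N') / rep (slice B u) (slice B' v) (a + a')) -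
        Real.log ((B.card * B'.card) / rep B B' (Fin.cons u a + Fin.cons v a')) := by
      rw [← Real.log_mul (by positivity) (by positivity), ← Real.log_div (by positivity)
        (by rw [hcB, hcB']; positivity)]
      congr 1
      rw [hcB, hcB']
      field_simp
    linarith
  have hcount : ∑ a ∈ slice B u, ∑ a' ∈ slice B' v,
      ((rep B B' (Fin.cons (u + v) (a + a')) : ℝ) /
          (rep C C' (u + v) * rep (slice B u) (slice B' v) (a + a')) - 1) ≤ 0 := by
    have h3 := sum_group (slice B u) (slice B' v) (fun w =>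
      ((rep B B' (Fin.cons (u + v) w) : ℝ) /
          (rep C C' (u + v) * rep (slice B u) (slice B' v) w) - 1))
    rw [h3]
    have h4 : ∀ w ∈ slice B u + slice B' v, (rep (slice B u) (slice B' v) w : ℝ) *
        ((rep B B' (Fin.cons (u + v) w) : ℝ) /
          (rep C C' (u + v) * rep (slice B u) (slice B' v) w) - 1) =
        (rep B B' (Fin.cons (u + v) w) : ℝ) / rep C C' (u + v) -
          (rep (slice B u) (slice B' v) w : ℝ) * 1 := by
      intro w hw
      obtain ⟨a, ha, a', ha', rfl⟩ := mem_add.1 hw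
      have hr2 : (0:ℝ) < rep (slice B u) (slice B' v) (a + a') := by
        exact_mod_cast rep_pos ha ha'
      field_simp
    rw [sum_congr rfl h4, sum_sub_distrib, ← sum_group (slice B u) (slice B' v) (fun _ => (1:ℝ)),
      ← sum_div]
    have h5 : ∑ a ∈ slice B u, ∑ a' ∈ slice B' v, (1:ℝ) = N * N' := by
      simp only [sum_const, nsmul_eq_mul, hN u hu, hN' v hv]; ring
    rw [h5, sub_nonpos, div_le_iff₀ hr1]
    have h6 := sum_rep_le B B' N N' hN hN' (u + v) (slice B u + slice B' v)
    have h7 : ((∑ w ∈ slice B u + slice B' v, rep B B' (Fin.cons (u + v) w) : ℕ) : ℝ) ≤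
        ((rep C C' (u + v) * (N * N') : ℕ) : ℝ) := Nat.cast_le.2 h6
    push_cast at h7
    linarith
  have hsum : ∑ a ∈ slice B u, ∑ a' ∈ slice B' v,
      (Real.log ((C.card * C'.card) / rep C C' (u + v)) +
        Real.log ((N * N') / rep (slice B u) (slice B' v) (a + a'))) ≤
      ∑ a ∈ slice B u, ∑ a' ∈ slice B' v,
      (Real.log ((B.card * B'.card) / rep B B' (Fin.cons u a + Fin.cons v a')) +
        ((rep B B' (Fin.cons (u + v) (a + a')) : ℝ) /
          (rep C C' (u + v) * rep (slice B u) (slice B' v) (a + a')) - 1)) :=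
    sum_le_sum fun a ha => sum_le_sum fun a' ha' => hpt a ha a' ha'
  simp only [sum_add_distrib] at hsum
  have h8 : ∑ a ∈ slice B u, ∑ a' ∈ slice B' v,
      Real.log ((C.card * C'.card) / rep C C' (u + v)) =
      N * N' * Real.log ((C.card * C'.card) / rep C C' (u + v)) := by
    simp only [sum_const, nsmul_eq_mul, hN u hu, hN' v hv]; ring
  have h9 : L (slice B u) (slice B' v) = ∑ a ∈ slice B u, ∑ a' ∈ slice B' v,
      Real.log ((N * N') / rep (slice B u) (slice B' v) (a + a')) := by
    rw [L, hN u hu, hN' v hv]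
  rw [h9, ← h8]
  linarith

theorem step (B B' : Finset (Fin (d+1) → Γ)) (N N' : ℕ)
    (hN : ∀ u ∈ B.image (fun x => x 0), (slice B u).card = N)
    (hN' : ∀ u ∈ B'.image (fun x => x 0), (slice B' u).card = N') :
    N * N' * L (B.image (fun x => x 0)) (B'.image (fun x => x 0)) +
      ∑ u ∈ B.image (fun x => x 0), ∑ v ∈ B'.image (fun x => x 0), L (slice B u) (slice B' v) ≤
    L B B' := by
  have h1 : L B B' = ∑ u ∈ B.image (fun x => x 0), ∑ v ∈ B'.image (fun x => x 0),
      ∑ a ∈ slice B u, ∑ a' ∈ slice B' v,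
        Real.log ((B.card * B'.card) / rep B B' (Fin.cons u a + Fin.cons v a')) := by
    rw [L, sum_slice B]
    refine sum_congr rfl fun u _ => ?_
    refine Eq.trans ?_ sum_comm
    refine sum_congr rfl fun a _ => ?_
    rw [sum_slice B']
  rw [h1, L, mul_sum, ← sum_add_distrib]
  refine sum_le_sum fun u hu => ?_
  rw [mul_sum, ← sum_add_distrib]
  exact sum_le_sum fun v hv => step_uv B B' N N' hN hN' u v hu hv

theorem ent_tree (d : ℕ) : ∀ (B B' : Finset (Fin d → Γ)) (m m' : Fin d → ℕ), B.Nonempty →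
    B'.Nonempty → (∀ b ∈ B, ∀ k, (fib B b k).card = m k) →
    (∀ b ∈ B', ∀ k, (fib B' b k).card = m' k) →
    ∑ k, ∑ b ∈ B, ∑ b' ∈ B', ent (fib B b k) (fib B' b' k) ≤ L B B' := by
  induction d with
  | zero =>
    intro B B' m m' hB hB' _ _
    simpa using L_nonneg hB hB'
  | succ d ih =>
    intro B B' m m' hB hB' h h'
    set C := B.image (fun x => x 0) with hC
    set C' := B'.image (fun x => x 0) with hC'
    have hfib : ∀ u ∈ C, ∀ a ∈ slice B u, ∀ k : Fin d, (fib (slice B u) a k).card = m k.succ := by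
      intro u _ a ha k
      rw [mem_slice] at ha
      have := h _ ha k.succ
      rw [fib_succ] at this
      simpa using this
    have hfib' : ∀ u ∈ C', ∀ a ∈ slice B' u, ∀ k : Fin d,
        (fib (slice B' u) a k).card = m' k.succ := by
      intro u _ a ha k
      rw [mem_slice] at ha
      have := h' _ ha k.succ
      rw [fib_succ] at this
      simpa using this
    have hN : ∀ u ∈ C, (slice B u).card = ∏ k : Fin d, m k.succ := fun u hu =>
      card_of_fib d _ (fun k => m k.succ) (slice_nonempty B u hu) (hfib u hu)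
    have hN' : ∀ u ∈ C', (slice B' u).card = ∏ k : Fin d, m' k.succ := fun u hu =>
      card_of_fib d _ (fun k => m' k.succ) (slice_nonempty B' u hu) (hfib' u hu)
    have hC0 : C.Nonempty := hB.image _
    have hC0' : C'.Nonempty := hB'.image _
    refine le_trans ?_ (step B B' _ _ hN hN')
    rw [Fin.sum_univ_succ]
    apply add_le_add
    · have h1 : ∀ b ∈ B, ∀ b' ∈ B', ent (fib B b 0) (fib B' b' 0) = ent C C' := by
        intro b _ b' _
        rw [fib_zero, fib_zero]
      have h1' : ∑ b ∈ B, ∑ b' ∈ B', ent (fib B b 0) (fib B' b' 0) =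
          ∑ b ∈ B, ∑ b' ∈ B', ent C C' :=
        sum_congr rfl fun b hb => sum_congr rfl fun b' hb' => h1 b hb b' hb'
      rw [h1']
      simp only [sum_const, nsmul_eq_mul]
      rw [L_eq hC0 hC0']
      have hcB : (B.card : ℝ) = C.card * (∏ k : Fin d, m k.succ : ℕ) := by
        have := sum_card_slice B C (fun x hx => mem_image_of_mem _ hx)
        rw [sum_congr rfl hN, sum_const, smul_eq_mul] at this
        rw [← this, Nat.cast_mul]
      have hcB' : (B'.card : ℝ) = C'.card * (∏ k : Fin d, m' k.succ : ℕ) := by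
        have := sum_card_slice B' C' (fun x hx => mem_image_of_mem _ hx)
        rw [sum_congr rfl hN', sum_const, smul_eq_mul] at this
        rw [← this, Nat.cast_mul]
      rw [hcB, hcB']
      apply le_of_eq
      ring
    · have h2 : ∀ k : Fin d, ∑ b ∈ B, ∑ b' ∈ B', ent (fib B b k.succ) (fib B' b' k.succ) =
          ∑ u ∈ C, ∑ v ∈ C', ∑ a ∈ slice B u, ∑ a' ∈ slice B' v,
            ent (fib (slice B u) a k) (fib (slice B' v) a' k) := by
        intro k
        rw [sum_slice B]
        refine sum_congr rfl fun u _ => ?_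
        refine Eq.trans ?_ sum_comm
        refine sum_congr rfl fun a _ => ?_
        rw [sum_slice B']
        refine sum_congr rfl fun v _ => sum_congr rfl fun a' _ => ?_
        rw [fib_succ, fib_succ]
        simp
      rw [sum_congr rfl fun k _ => h2 k, sum_comm]
      refine sum_le_sum fun u hu => ?_
      rw [sum_comm]
      refine sum_le_sum fun v hv => ?_
      exact ih _ _ _ _ (slice_nonempty B u hu) (slice_nonempty B' v hv) (hfib u hu) (hfib' v hv)

end step

end Q239.RT
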