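import Pool.Agent.Q239.RT.Final

/-!
# The reduction of the polynomial Freiman-Ruzsa conjecture to homogeneous sets
-/

set_option autoImplicit false

namespace Q239.RT

open Finset
open scoped Pointwise

/-- the K-form of `exists_homogeneous` -/
theorem exists_homogeneousK {G Γ : Type*} [DecidableEq G] [DecidableEq Γ] [AddCommGroup G]
    [AddCommGroup Γ] [IsAddTorsionFree Γ] {d : ℕ} (φ : Fin d → (G →+ Γ))
    (hφ : ∀ x, (∀ k, φ k x = 0) → x = 0) (A : Finset G) (hA : A.Nonempty) :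
    ∃ B ⊆ A, ∃ n : Fin d → ℕ, B.Nonempty ∧ (∀ b ∈ B, ∀ k, (fibre φ B b k).card = n k) ∧
      (A.card : ℝ) ^ 2 ≤ ((8:ℕ) • A).card * B.card ∧
      ∀ K : ℝ, ((A + A).card : ℝ) ≤ K * A.card →
        (A.card : ℝ) ≤ K ^ 8 * B.card ∧ ((B + B).card : ℝ) ≤ K ^ 9 * B.card := by
  obtain ⟨B, hBA, n, hB, h3, h1⟩ := exists_homogeneous φ hφ A hA
  refine ⟨B, hBA, n, hB, h3, h1, fun K hK => ?_⟩
  have hA0 : (0:ℝ) < A.card := by exact_mod_cast hA.card_pos
  have hB0 : (0:ℝ) < B.card := by exact_mod_cast hB.card_pos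
  have hAA : (A.card : ℝ) ≤ (A + A).card := by
    exact_mod_cast card_le_card_add_right hA
  have hK0 : 0 < K := by
    by_contra h
    push Not at h
    nlinarith
  -- Pluennecke
  have hP : (((8:ℕ) • A).card : ℝ) ≤ K ^ 8 * A.card := by
    have h7 := pluennecke_ruzsa_inequality_nsmul_add (A := A) hA A 8
    have h8 : (((8:ℕ) • A).card : ℝ) ≤ (((A + A).card : ℝ) / A.card) ^ 8 * A.card := by
      have h8' := (NNRat.cast_le (K := ℝ)).2 h7
      push_cast at h8'
      exact h8'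
    refine le_trans h8 (mul_le_mul_of_nonneg_right ?_ hA0.le)
    refine pow_le_pow_left₀ (by positivity) ?_ 8
    rw [div_le_iff₀ hA0]; exact hK
  have hAB : (A.card : ℝ) ≤ K ^ 8 * B.card := by
    have h9 : (A.card : ℝ) * A.card ≤ (K ^ 8 * B.card) * A.card := by
      calc (A.card : ℝ) * A.card = (A.card : ℝ) ^ 2 := by ring
        _ ≤ ((8:ℕ) • A).card * B.card := h1
        _ ≤ (K ^ 8 * A.card) * B.card := mul_le_mul_of_nonneg_right hP hB0.le
        _ = (K ^ 8 * B.card) * A.card := by ring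
    exact le_of_mul_le_mul_right h9 hA0
  refine ⟨hAB, ?_⟩
  have h10 : ((B + B).card : ℝ) ≤ (A + A).card := by
    exact_mod_cast card_le_card (add_subset_add hBA hBA)
  calc ((B + B).card : ℝ) ≤ K * A.card := h10.trans hK
    _ ≤ K * (K ^ 8 * B.card) := mul_le_mul_of_nonneg_left hAB hK0.le
    _ = K ^ 9 * B.card := by ring

/-- the K-form of `rigid` -/
theorem rigidK {G Γ : Type*} [DecidableEq G] [DecidableEq Γ] [AddCommGroup G] [AddCommGroup Γ]
    [IsAddTorsionFree Γ] {d : ℕ} (φ : Fin d → (G →+ Γ)) (hφ : ∀ x, (∀ k, φ k x = 0) → x = 0)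
    (B : Finset G) (n : Fin d → ℕ) (hB : B.Nonempty)
    (h3 : ∀ b ∈ B, ∀ k, (fibre φ B b k).card = n k) (K : ℝ)
    (hBB : ((B + B).card : ℝ) ≤ K * B.card) :
      B.card = ∏ k, n k ∧
      (∀ x ∈ B, ∀ y ∈ B, (∀ k, 2 ≤ n k → φ k x = φ k y) → x = y) ∧
      ((univ.filter (fun k => 2 ≤ n k)).card : ℝ) * Real.log (3 / 2) ≤ Real.log K ∧
      (∀ k, ∀ b ∈ B, ∀ b' ∈ B, Real.log (n k) ≤ ent (fibre φ B b k) (fibre φ B b' k)) ∧
      (∑ k, ∑ b ∈ B, ∑ b' ∈ B, (ent (fibre φ B b k) (fibre φ B b' k) - Real.log (n k)) ≤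
        (B.card : ℝ) ^ 2 * Real.log K) ∧
      ∃ c : Fin d → G, (∀ k, c k ∈ B) ∧
        ∏ k, ((fibre φ B (c k) k + fibre φ B (c k) k).card : ℝ) ≤
          K ^ 2 * ∏ k, ((fibre φ B (c k) k).card : ℝ) := by
  obtain ⟨h2, h4, h5, hent, c, hc, h6⟩ := rigid φ hφ B n hB h3
  have hB0 : (0:ℝ) < B.card := by exact_mod_cast hB.card_pos
  have hBB1 : (B.card : ℝ) ≤ (B + B).card := by
    exact_mod_cast card_le_card_add_right hB
  have hK0 : 0 < K := by
    by_contra h
    push Not at h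
    nlinarith
  have hn1 : ∀ k, 1 ≤ n k := by
    obtain ⟨b, hb⟩ := hB
    intro k
    rw [← h3 b hb k]
    exact card_pos.2 ⟨φ k b, mem_image.2 ⟨b, mem_filter.2 ⟨hb, fun _ _ => rfl⟩, rfl⟩⟩
  have hBn : (B.card : ℝ) = ∏ k, (n k : ℝ) := by rw [h2, Nat.cast_prod]
  have hfne : ∀ b ∈ B, ∀ k, (fibre φ B b k).Nonempty := by
    intro b hb k
    exact ⟨φ k b, mem_image.2 ⟨b, mem_filter.2 ⟨hb, fun _ _ => rfl⟩, rfl⟩⟩
  refine ⟨h2, h4, ?_, ?_, ?_, c, hc, ?_⟩
  · -- the number of branching levels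
    have hlog : (3 / 2 : ℝ) ^ (univ.filter (fun k => 2 ≤ n k)).card * B.card ≤ K * B.card := by
      refine le_trans ?_ hBB
      have h11 : ((∏ k, (2 * n k - 1) : ℕ) : ℝ) ≤ ((B + B).card : ℝ) := Nat.cast_le.2 h5
      refine le_trans ?_ h11
      rw [hBn, Nat.cast_prod]
      have h12 : (3 / 2 : ℝ) ^ (univ.filter (fun k => 2 ≤ n k)).card =
          ∏ k, (if 2 ≤ n k then (3 / 2 : ℝ) else 1) := by
        rw [prod_ite]; simp [div_pow]
      rw [h12, ← prod_mul_distrib]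
      refine prod_le_prod (fun k _ => ?_) (fun k _ => ?_)
      · have : (0:ℝ) ≤ n k := Nat.cast_nonneg _
        split_ifs <;> linarith
      · have h13 : ((2 * n k - 1 : ℕ) : ℝ) = 2 * (n k : ℝ) - 1 := by
          rw [Nat.cast_sub (by have := hn1 k; omega)]; push_cast; ring
        rw [h13]
        split_ifs with h14
        · have : (2:ℝ) ≤ n k := by exact_mod_cast h14
          linarith
        · have : (1:ℝ) ≤ n k := by exact_mod_cast hn1 k
          linarith
    have h15 := le_of_mul_le_mul_right hlog hB0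
    have h16 := Real.log_le_log (by positivity) h15
    rw [Real.log_pow] at h16
    exact h16
  · intro k b hb b' hb'
    rw [← h3 b hb k]
    exact ent_ge (hfne b hb k) (hfne b' hb' k)
  · have e1 : ∑ k, ∑ b ∈ B, ∑ b' ∈ B, (ent (fibre φ B b k) (fibre φ B b' k) - Real.log (n k)) =
        ∑ k, ∑ b ∈ B, ∑ b' ∈ B, ent (fibre φ B b k) (fibre φ B b' k) -
          (B.card : ℝ) ^ 2 * Real.log B.card := by
      have e2 : Real.log B.card = ∑ k, Real.log (n k) := by
        rw [hBn, Real.log_prod]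
        intro k _
        have := hn1 k
        positivity
      rw [e2, mul_sum, ← sum_sub_distrib]
      refine sum_congr rfl fun k _ => ?_
      simp only [sum_sub_distrib, sum_const, nsmul_eq_mul]
      ring
    rw [e1]
    have e3 : Real.log ((B + B).card : ℝ) ≤ Real.log K + Real.log B.card := by
      have e4 : (0:ℝ) < (B + B).card := by exact_mod_cast (hB.add hB).card_pos
      have e5 := Real.log_le_log e4 hBB
      rw [Real.log_mul (by positivity) (by positivity)] at e5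
      exact e5
    have e6 := mul_le_mul_of_nonneg_left e3 (sq_nonneg (B.card : ℝ))
    linarith
  · have h17 : ∏ k, ((fibre φ B (c k) k).card : ℝ) = B.card := by
      rw [hBn]
      exact prod_congr rfl (fun k _ => by rw [h3 (c k) (hc k) k])
    rw [h17]
    have h18 : (∏ k, ((fibre φ B (c k) k + fibre φ B (c k) k).card : ℝ)) * B.card ≤
        (K ^ 2 * B.card) * B.card := by
      calc (∏ k, ((fibre φ B (c k) k + fibre φ B (c k) k).card : ℝ)) * B.card
          ≤ ((B + B).card : ℝ) ^ 2 := h6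
        _ ≤ (K * B.card) ^ 2 := pow_le_pow_left₀ (Nat.cast_nonneg _) hBB 2
        _ = (K ^ 2 * B.card) * B.card := by ring
    exact le_of_mul_le_mul_right h18 hB0

/-- the set of the points of a progression -/
def prog {Z : Type*} [AddCommGroup Z] {r : ℕ} (a : Z) (v : Fin r → Z) (N : Fin r → ℕ) : Set Z :=
  {x | ∃ m : Fin r → ℕ, (∀ i, m i < N i) ∧ x = a + ∑ i, m i • v i}

/-- the conclusion of Q1 with `L` in place of `C * K ^ C` -/
def Conclusion {Z : Type*} [AddCommGroup Z] (A : Finset Z) (L : ℝ) : Prop :=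
  ∃ (r : ℕ) (a : Z) (v : Fin r → Z) (N : Fin r → ℕ),
    (r : ℝ) ≤ L ∧ ((prog a v N).ncard : ℝ) ≤ L * A.card ∧
      (A.card : ℝ) ≤ L * (((A : Set Z) ∩ prog a v N).ncard : ℝ)

theorem Conclusion_of_subset {Z : Type*} [AddCommGroup Z] {A B : Finset Z} {L M : ℝ}
    (hM : 1 ≤ M) (hL : 0 ≤ L)
    (hBA : B ⊆ A) (h : (A.card : ℝ) ≤ M * B.card) (hB : Conclusion B L) :
    Conclusion A (M * L) := by
  obtain ⟨r, a, v, N, h1, h2, h3⟩ := hB
  have hLM : L ≤ M * L := le_mul_of_one_le_left hL hM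
  have hBA' : (B.card : ℝ) ≤ A.card := by exact_mod_cast card_le_card hBA
  refine ⟨r, a, v, N, h1.trans hLM, h2.trans ?_, ?_⟩
  · exact mul_le_mul hLM hBA' (Nat.cast_nonneg _) (by positivity)
  · have h4 : (((B : Set Z) ∩ prog a v N).ncard : ℝ) ≤ (((A : Set Z) ∩ prog a v N).ncard : ℝ) := by
      have : (((B : Set Z) ∩ prog a v N).ncard) ≤ (((A : Set Z) ∩ prog a v N).ncard) :=
        Set.ncard_le_ncard (Set.inter_subset_inter_left _ (by exact_mod_cast hBA))
          (A.finite_toSet.inter_of_left _)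
      exact_mod_cast this
    calc (A.card : ℝ) ≤ M * B.card := h
      _ ≤ M * (L * (((B : Set Z) ∩ prog a v N).ncard : ℝ)) :=
        mul_le_mul_of_nonneg_left h3 (by linarith)
      _ ≤ M * (L * (((A : Set Z) ∩ prog a v N).ncard : ℝ)) :=
        mul_le_mul_of_nonneg_left (mul_le_mul_of_nonneg_left h4 hL) (by linarith)
      _ = _ := by ring

theorem image_prog {Y Z : Type*} [AddCommGroup Y] [AddCommGroup Z] (ψ : Y →+ Z) {r : ℕ} (a : Y)
    (v : Fin r → Y) (N : Fin r → ℕ) :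
    ψ '' (prog a v N) = prog (ψ a) (fun i => ψ (v i)) N := by
  ext x
  constructor
  · rintro ⟨_, ⟨m, hm, rfl⟩, rfl⟩
    refine ⟨m, hm, ?_⟩
    rw [map_add, map_sum]
    simp only [map_nsmul]
  · rintro ⟨m, hm, rfl⟩
    refine ⟨_, ⟨m, hm, rfl⟩, ?_⟩
    rw [map_add, map_sum]
    simp only [map_nsmul]

theorem Conclusion_image {Y Z : Type*} [AddCommGroup Y] [AddCommGroup Z] [DecidableEq Z]
    (ψ : Y →+ Z) (hψ : Function.Injective ψ) {B : Finset Y} {L : ℝ} (h : Conclusion B L) :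
    Conclusion (B.image ψ) L := by
  obtain ⟨r, a, v, N, h1, h2, h3⟩ := h
  refine ⟨r, ψ a, fun i => ψ (v i), N, h1, ?_, ?_⟩
  · rw [← image_prog, Set.ncard_image_of_injective _ hψ, card_image_of_injective _ hψ]
    exact h2
  · rw [← image_prog, coe_image, ← Set.image_inter hψ, Set.ncard_image_of_injective _ hψ,
      card_image_of_injective _ hψ]
    exact h3

/-- finite subsets of torsion-free groups are images of subsets of `ℤ ^ d` -/
theorem exists_coords {Z : Type*} [AddCommGroup Z] [DecidableEq Z]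
    (htf : ∀ (n : ℕ) (x : Z), n ≠ 0 → n • x = 0 → x = 0) (A : Finset Z) :
    ∃ (d : ℕ) (ψ : (Fin d → ℤ) →+ Z), Function.Injective ψ ∧
      ∃ A' : Finset (Fin d → ℤ), A'.image ψ = A := by
  have : IsAddTorsionFree Z := by
    refine ⟨fun n hn x y hxy => ?_⟩
    have h : n • (x - y) = 0 := by
      rw [smul_sub, sub_eq_zero]; exact hxy
    exact sub_eq_zero.1 (htf n _ hn h)
  let M := Submodule.span ℤ (A : Set Z)
  have : Module.Finite ℤ M := Module.Finite.span_of_finite ℤ A.finite_toSet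
  have : Module.Free ℤ M := inferInstance
  let b := Module.finBasis ℤ M
  let e := b.equivFun
  let ψ : (Fin (Module.finrank ℤ M) → ℤ) →+ Z := (M.subtype.comp e.symm.toLinearMap).toAddMonoidHom
  have hψ : Function.Injective ψ := by
    intro x y h
    have h1 : M.subtype (e.symm x) = M.subtype (e.symm y) := h
    exact e.symm.injective (Subtype.coe_injective h1)
  refine ⟨_, ψ, hψ, A.preimage ψ hψ.injOn, ?_⟩
  classical
  rw [image_preimage]
  refine filter_true_of_mem (fun x hx => ?_)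
  have hx' : x ∈ M := Submodule.subset_span hx
  refine ⟨e ⟨x, hx'⟩, ?_⟩
  change M.subtype (e.symm (e ⟨x, hx'⟩)) = x
  rw [e.symm_apply_apply]
  rfl

/-- the coordinates -/
def coord (d : ℕ) (k : Fin d) : (Fin d → ℤ) →+ ℤ := Pi.evalAddMonoidHom (fun _ => ℤ) k

/-- Q1 -/
def Q1 : Prop := ∃ C : ℝ, 1 ≤ C ∧ ∀ (Z : Type) [AddCommGroup Z] [DecidableEq Z],
  (∀ (n : ℕ) (x : Z), n ≠ 0 → n • x = 0 → x = 0) →
  ∀ (K : ℝ) (A : Finset Z), 1 ≤ K → A.Nonempty → ((A + A).card : ℝ) ≤ K * A.card →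
    Conclusion A (C * K ^ C)

/-- Q1 for the homogeneous subsets of `ℤ ^ d` -/
def Q1Hom : Prop := ∃ C : ℝ, 1 ≤ C ∧ ∀ (d : ℕ) (n : Fin d → ℕ) (K : ℝ) (B : Finset (Fin d → ℤ)),
  1 ≤ K → B.Nonempty → ((B + B).card : ℝ) ≤ K * B.card →
    (∀ b ∈ B, ∀ k, (fibre (coord d) B b k).card = n k) → Conclusion B (C * K ^ C)

theorem Q1_iff : Q1 ↔ Q1Hom := by
  constructor
  · rintro ⟨C, hC, h⟩
    refine ⟨C, hC, fun d n K B hK hB hBB _ => h (Fin d → ℤ) ?_ K B hK hB hBB⟩
    intro n x hn hx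
    funext k
    have := congrFun hx k
    simpa [hn] using this
  · rintro ⟨C, hC, h⟩
    refine ⟨9 * C + 8, by linarith, fun Z _ _ htf K A hK hA hAA => ?_⟩
    obtain ⟨d, ψ, hψ, A', rfl⟩ := exists_coords htf A
    apply Conclusion_image ψ hψ
    have hA' : A'.Nonempty := image_nonempty.1 hA
    have hAA' : ((A' + A').card : ℝ) ≤ K * A'.card := by
      have h1 : A'.image ψ + A'.image ψ = (A' + A').image ψ := (image_add ψ).symm
      rwa [h1, card_image_of_injective _ hψ, card_image_of_injective _ hψ] at hAA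
    obtain ⟨B, hBA, n, hB, h3, -, h4'⟩ :=
      exists_homogeneousK (coord d) (fun x hx => funext hx) A' hA'
    obtain ⟨h4, hBB⟩ := h4' K hAA'
    have hK0 : 0 < K := by linarith
    have h5 := h d n (K ^ 9) B (one_le_pow₀ hK) hB hBB h3
    have h6 := Conclusion_of_subset (one_le_pow₀ hK (n := 8))
      (mul_nonneg (by linarith) (Real.rpow_nonneg (by positivity) _)) hBA h4 h5
    have h7 : K ^ 8 * (C * (K ^ 9) ^ C) ≤ (9 * C + 8) * K ^ (9 * C + 8) := by
      have h8 : (K ^ 9 : ℝ) ^ C = K ^ (9 * C) := by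
        rw [← Real.rpow_natCast, ← Real.rpow_mul hK0.le]; norm_num
      have h9 : (K : ℝ) ^ (9 * C + 8) = K ^ (9 * C) * K ^ 8 := by
        rw [Real.rpow_add hK0]
        congr 1
        rw [← Real.rpow_natCast]; norm_num
      rw [h8, h9]
      have h10 : 0 ≤ K ^ (9 * C) * K ^ 8 := by positivity
      calc K ^ 8 * (C * K ^ (9 * C)) = C * (K ^ (9 * C) * K ^ 8) := by ring
        _ ≤ (9 * C + 8) * (K ^ (9 * C) * K ^ 8) :=
          mul_le_mul_of_nonneg_right (by linarith) h10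
    obtain ⟨r, a, v, N, e1, e2, e3⟩ := h6
    exact ⟨r, a, v, N, e1.trans h7,
      e2.trans (mul_le_mul_of_nonneg_right h7 (Nat.cast_nonneg _)),
      e3.trans (mul_le_mul_of_nonneg_right h7 (Nat.cast_nonneg _))⟩

end Q239.RT
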