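import Pool.Agent.Q239.RT.Ent

/-!
# Homogeneous subsets along a sequence of homomorphisms
-/

set_option autoImplicit false

namespace Q239.RT

open Finset
open scoped Pointwise

theorem core_tuples {Γ : Type*} [DecidableEq Γ] [AddCommGroup Γ] [IsAddTorsionFree Γ] {d : ℕ}
    (A : Finset (Fin d → Γ)) (hA : A.Nonempty) :
    ∃ B ⊆ A, B.Nonempty ∧ ∃ n : Fin d → ℕ, (∀ b ∈ B, ∀ k, (fib B b k).card = n k) ∧
      (A.card : ℝ) ^ 2 ≤ ((8:ℕ) • A).card * B.card := by
  set A2 := A + A with hA2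
  set A4 := A2 + A2 with hA4
  set A8 := A4 + A4 with hA8
  have e8 : (8:ℕ) • A = A8 := by rw [hA8, hA4, hA2]; abel
  have hD : (Dset d A).Nonempty := by
    rw [← card_pos, card_Dset]; exact hA.card_pos
  have h4 : ∀ n : Fin d → ℕ, n ∈ Dset d A → (fun k => 4 * n k) ∈ Dset d A4 := by
    intro n hn
    have h1 := Dset_add d A A n n hn hn
    have h2 := Dset_add d A2 A2 _ _ h1 h1
    have h3 : (fun k => 4 * n k) = n + n + (n + n) := by
      funext k; simp only [Pi.add_apply]; ring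
    rw [h3]; exact h2
  obtain ⟨m, hm, hcard⟩ := card_sq_le (Dset d A) (Dset d A8) hD (by
    classical
    intro x hx y hy z hz
    have hx' : (fun k => if z k ≤ 4 * x k then x k else 0) ∈ Dset d A :=
      Dset_down d A x _ hx (fun k => by split_ifs <;> omega)
    have hy' : (fun k => if z k ≤ 4 * x k then 0 else y k) ∈ Dset d A :=
      Dset_down d A y _ hy (fun k => by split_ifs <;> omega)
    have h5 := Dset_add d A4 A4 _ _ (h4 _ hx') (h4 _ hy')
    refine Dset_down d A8 _ _ h5 (fun k => ?_)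
    simp only [Pi.add_apply]
    rcases hz k with h | h
    · simp [h]
    · split_ifs <;> omega)
  obtain ⟨B, hBA, hB, hfib⟩ := exists_tree d A m hm
  refine ⟨B, hBA, hB, fun k => m k + 1, hfib, ?_⟩
  have h6 := card_of_fib d B (fun k => m k + 1) hB hfib
  have h7 : (B.card : ℝ) = ∏ k, ((1:ℝ) + m k) := by
    rw [h6]; push_cast
    exact prod_congr rfl (fun k _ => by ring)
  rw [card_Dset, card_Dset, ← e8, ← h7] at hcard
  exact hcard

section homs

variable {G Γ : Type*} [DecidableEq G] [DecidableEq Γ] [AddCommGroup G] [AddCommGroup Γ] {d : ℕ}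

/-- the values of `φ k` at the elements of `B` at which `φ j` has the same value as at `b` for all
`j < k` -/
def fibre (φ : Fin d → (G →+ Γ)) (B : Finset G) (b : G) (k : Fin d) : Finset Γ :=
  (B.filter (fun x => ∀ j, j < k → φ j x = φ j b)).image (φ k)

/-- the tuple of values -/
def emb (φ : Fin d → (G →+ Γ)) (x : G) : Fin d → Γ := fun k => φ k x

theorem emb_add (φ : Fin d → (G →+ Γ)) (x y : G) : emb φ (x + y) = emb φ x + emb φ y := by
  funext k; simp [emb]

theorem emb_injective (φ : Fin d → (G →+ Γ)) (hφ : ∀ x, (∀ k, φ k x = 0) → x = 0) :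
    Function.Injective (emb φ) := by
  intro x y h
  have h1 : x - y = 0 := hφ _ (fun k => by
    rw [map_sub, sub_eq_zero]; exact congrFun h k)
  exact sub_eq_zero.1 h1

theorem image_emb_add (φ : Fin d → (G →+ Γ)) (A B : Finset G) :
    (A + B).image (emb φ) = A.image (emb φ) + B.image (emb φ) := by
  ext z
  simp only [mem_image, mem_add]
  constructor
  · rintro ⟨_, ⟨a, ha, b, hb, rfl⟩, rfl⟩
    exact ⟨_, ⟨a, ha, rfl⟩, _, ⟨b, hb, rfl⟩, (emb_add φ a b).symm⟩
  · rintro ⟨_, ⟨a, ha, rfl⟩, _, ⟨b, hb, rfl⟩, rfl⟩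
    exact ⟨a + b, ⟨a, ha, b, hb, rfl⟩, emb_add φ a b⟩

theorem fib_image (φ : Fin d → (G →+ Γ)) (B : Finset G) (b : G) (k : Fin d) :
    fib (B.image (emb φ)) (emb φ b) k = fibre φ B b k := by
  ext c
  rw [mem_fib]
  simp only [fibre, mem_image, mem_filter]
  constructor
  · rintro ⟨_, ⟨x, hx, rfl⟩, h1, h2⟩
    exact ⟨x, ⟨hx, h1⟩, h2⟩
  · rintro ⟨x, ⟨hx, h1⟩, h2⟩
    exact ⟨_, ⟨x, hx, rfl⟩, h1, h2⟩

theorem card_nsmul_image (φ : Fin d → (G →+ Γ)) (hφ : ∀ x, (∀ k, φ k x = 0) → x = 0)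
    (A : Finset G) : ((8:ℕ) • (A.image (emb φ))).card = ((8:ℕ) • A).card := by
  have hinj := emb_injective φ hφ
  have e1 : (8:ℕ) • (A.image (emb φ)) = ((8:ℕ) • A).image (emb φ) := by
    have ea : (8:ℕ) • A = (A + A + (A + A)) + (A + A + (A + A)) := by abel
    have eb : (8:ℕ) • (A.image (emb φ)) =
        (A.image (emb φ) + A.image (emb φ) + (A.image (emb φ) + A.image (emb φ))) +
        (A.image (emb φ) + A.image (emb φ) + (A.image (emb φ) + A.image (emb φ))) := by abel
    rw [ea, eb, image_emb_add, image_emb_add, image_emb_add]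
  rw [e1, card_image_of_injective _ hinj]

/-- existence of a large homogeneous subset -/
theorem exists_homogeneous [IsAddTorsionFree Γ] (φ : Fin d → (G →+ Γ))
    (hφ : ∀ x, (∀ k, φ k x = 0) → x = 0) (A : Finset G) (hA : A.Nonempty) :
    ∃ B ⊆ A, ∃ n : Fin d → ℕ, B.Nonempty ∧ (∀ b ∈ B, ∀ k, (fibre φ B b k).card = n k) ∧
      (A.card : ℝ) ^ 2 ≤ ((8:ℕ) • A).card * B.card := by
  have hinj := emb_injective φ hφ
  obtain ⟨B', hB'A, hB', n, hfib', hcard⟩ := core_tuples (A.image (emb φ)) (hA.image _)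
  set B : Finset G := A.filter (fun x => emb φ x ∈ B') with hB
  have hBi : B.image (emb φ) = B' := by
    ext z
    rw [mem_image]
    constructor
    · rintro ⟨x, hx, rfl⟩; exact (mem_filter.1 hx).2
    · intro hz
      obtain ⟨x, hx, rfl⟩ := mem_image.1 (hB'A hz)
      exact ⟨x, mem_filter.2 ⟨hx, hz⟩, rfl⟩
  have hBne : B.Nonempty := by
    rw [← hBi] at hB'
    exact image_nonempty.1 hB'
  have hcB : B'.card = B.card := by rw [← hBi, card_image_of_injective _ hinj]
  have hfib : ∀ b ∈ B, ∀ k, (fibre φ B b k).card = n k := by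
    intro b hb k
    rw [← fib_image, hBi]
    exact hfib' _ (by rw [← hBi]; exact mem_image_of_mem _ hb) k
  refine ⟨B, filter_subset _ _, n, hBne, hfib, ?_⟩
  rw [card_nsmul_image φ hφ, card_image_of_injective _ hinj, hcB] at hcard
  exact hcard

/-- the shape of a homogeneous set -/
theorem rigid [IsAddTorsionFree Γ] (φ : Fin d → (G →+ Γ))
    (hφ : ∀ x, (∀ k, φ k x = 0) → x = 0) (B : Finset G) (n : Fin d → ℕ) (hBne : B.Nonempty)
    (hfib : ∀ b ∈ B, ∀ k, (fibre φ B b k).card = n k) :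
      B.card = ∏ k, n k ∧
      (∀ x ∈ B, ∀ y ∈ B, (∀ k, 2 ≤ n k → φ k x = φ k y) → x = y) ∧
      (∏ k, (2 * n k - 1) ≤ (B + B).card) ∧
      (∑ k, ∑ b ∈ B, ∑ b' ∈ B, ent (fibre φ B b k) (fibre φ B b' k) ≤
        (B.card : ℝ) ^ 2 * Real.log (B + B).card) ∧
      ∃ c : Fin d → G, (∀ k, c k ∈ B) ∧
        (∏ k, ((fibre φ B (c k) k + fibre φ B (c k) k).card : ℝ)) * B.card ≤
          ((B + B).card : ℝ) ^ 2 := by
  have hinj := emb_injective φ hφ
  obtain ⟨B', hBi⟩ : ∃ B' : Finset (Fin d → Γ), B.image (emb φ) = B' := ⟨_, rfl⟩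
  have hB' : B'.Nonempty := by rw [← hBi]; exact hBne.image _
  have hcB : B'.card = B.card := by rw [← hBi, card_image_of_injective _ hinj]
  have hfib' : ∀ b ∈ B', ∀ k, (fib B' b k).card = n k := by
    intro b hb k
    rw [← hBi] at hb
    obtain ⟨x, hx, rfl⟩ := mem_image.1 hb
    rw [← hBi, fib_image]
    exact hfib x hx k
  have hBB : (B' + B').card = (B + B).card := by
    rw [← hBi, ← image_emb_add, card_image_of_injective _ hinj]
  have hprod := card_of_fib d B' n hB' hfib'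
  -- fibres of smallest sumset
  have hne : (B ×ˢ B).Nonempty := hBne.product hBne
  have hmin : ∀ k : Fin d, ∃ p ∈ B ×ˢ B, ∀ q ∈ B ×ˢ B,
      (fibre φ B p.1 k + fibre φ B p.2 k).card ≤ (fibre φ B q.1 k + fibre φ B q.2 k).card :=
    fun k => exists_min_image (B ×ˢ B) (fun p => (fibre φ B p.1 k + fibre φ B p.2 k).card) hne
  choose p hp hpmin using hmin
  have hlow := sum_lower d B' B' (fun k => (fibre φ B (p k).1 k + fibre φ B (p k).2 k).card)
    hB' hB' (by
      intro b hb b' hb' k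
      rw [← hBi] at hb hb'
      obtain ⟨x, hx, rfl⟩ := mem_image.1 hb
      obtain ⟨y, hy, rfl⟩ := mem_image.1 hb'
      rw [← hBi, fib_image, fib_image]
      exact hpmin k (x, y) (mem_product.2 ⟨hx, hy⟩))
  rw [hBB] at hlow
  have hfne : ∀ b ∈ B, ∀ k, (fibre φ B b k).Nonempty := by
    intro b hb k
    exact ⟨φ k b, mem_image.2 ⟨b, mem_filter.2 ⟨hb, fun _ _ => rfl⟩, rfl⟩⟩
  have hp1 : ∀ k, (p k).1 ∈ B := fun k => (mem_product.1 (hp k)).1
  have hp2 : ∀ k, (p k).2 ∈ B := fun k => (mem_product.1 (hp k)).2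
  have hentt : ∑ k, ∑ b ∈ B, ∑ b' ∈ B, ent (fibre φ B b k) (fibre φ B b' k) ≤
      (B.card : ℝ) ^ 2 * Real.log (B + B).card := by
    have e1 := ent_tree d B' B' n n hB' hB' hfib' hfib'
    have e2 := L_le hB' hB'
    rw [hBB, hcB] at e2
    have e3 : ∀ k : Fin d, ∑ b ∈ B', ∑ b' ∈ B', ent (fib B' b k) (fib B' b' k) =
        ∑ b ∈ B, ∑ b' ∈ B, ent (fibre φ B b k) (fibre φ B b' k) := by
      intro k
      have e4 : ∀ f : (Fin d → Γ) → ℝ, ∑ b ∈ B', f b = ∑ b ∈ B, f (emb φ b) := by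
        intro f
        rw [← hBi, sum_image (fun x _ y _ h => hinj h)]
      rw [e4]
      refine sum_congr rfl fun b _ => ?_
      rw [e4]
      refine sum_congr rfl fun b' _ => ?_
      rw [← hBi, fib_image, fib_image]
    rw [sum_congr rfl fun k _ => e3 k] at e1
    calc _ ≤ L B' B' := e1
      _ ≤ _ := e2
      _ = _ := by ring
  refine ⟨?_, ?_, ?_, hentt, fun k => (p k).1, hp1, ?_⟩
  · rw [← hcB]; exact hprod
  · intro x hx y hy h
    have hall : ∀ m : ℕ, ∀ k : Fin d, k.val = m → φ k x = φ k y := by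
      intro m
      induction m using Nat.strong_induction_on with
      | _ m ih =>
        intro k hk
        by_cases h2 : 2 ≤ n k
        · exact h k h2
        · have h3 : (fibre φ B x k).card ≤ 1 := by rw [hfib x hx k]; omega
          have h4 : φ k x ∈ fibre φ B x k :=
            mem_image.2 ⟨x, mem_filter.2 ⟨hx, fun _ _ => rfl⟩, rfl⟩
          have h5 : φ k y ∈ fibre φ B x k :=
            mem_image.2 ⟨y, mem_filter.2 ⟨hy, fun j hj => (ih j.val (by omega) j rfl).symm⟩, rfl⟩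
          exact card_le_one.1 h3 _ h4 _ h5
    exact hinj (funext fun k => hall k.val k rfl)
  · refine le_trans (prod_le_prod' (fun k _ => ?_)) hlow
    have := cauchy_davenport_of_isAddTorsionFree (hfne _ (hp1 k) k) (hfne _ (hp2 k) k)
    rw [hfib _ (hp1 k) k, hfib _ (hp2 k) k] at this
    omega
  · have hr : ∀ k, ((fibre φ B (p k).1 k + fibre φ B (p k).1 k).card : ℝ) * n k ≤
        ((fibre φ B (p k).1 k + fibre φ B (p k).2 k).card : ℝ) ^ 2 := by
      intro k
      have := ruzsa_triangle_inequality_add_add_add (fibre φ B (p k).1 k) (fibre φ B (p k).2 k)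
        (fibre φ B (p k).1 k)
      rw [hfib _ (hp2 k) k, add_comm (fibre φ B (p k).2 k) (fibre φ B (p k).1 k)] at this
      rw [sq]
      exact_mod_cast this
    have hBc : (B.card : ℝ) = ∏ k, (n k : ℝ) := by
      rw [← hcB, hprod, Nat.cast_prod]
    rw [hBc, ← prod_mul_distrib]
    calc ∏ k, (((fibre φ B (p k).1 k + fibre φ B (p k).1 k).card : ℝ) * n k)
        ≤ ∏ k, ((fibre φ B (p k).1 k + fibre φ B (p k).2 k).card : ℝ) ^ 2 :=
          prod_le_prod (fun k _ => mul_nonneg (Nat.cast_nonneg _) (Nat.cast_nonneg _))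
            (fun k _ => hr k)
      _ = (∏ k, ((fibre φ B (p k).1 k + fibre φ B (p k).2 k).card : ℝ)) ^ 2 :=
          prod_pow _ _ _
      _ ≤ ((B + B).card : ℝ) ^ 2 := by
          refine pow_le_pow_left₀ (prod_nonneg (fun k _ => Nat.cast_nonneg _)) ?_ 2
          rw [← Nat.cast_prod]
          exact Nat.cast_le.2 hlow

end homs

end Q239.RT
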