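import Mathlib

/-!
# A functional inequality on the orthant of integer points

If `h(z)^2` bounds `f(x) g(y)` whenever every `z_k` is at most `4 max(x_k, y_k)`, and
`f(x) ∏ (1 + x_k) ≤ b`, `g(x) ∏ (1 + x_k) ≤ c`, then `(∑ f)^2 (∑ g)^2 ≤ b c (∑ h)^2`.
-/

set_option autoImplicit false

namespace Q239.RT

open Finset

theorem sum_inv_sqrt (M : ℕ) : ∑ y ∈ range M, 1 / √((1:ℝ) + y) ≤ 2 * √M := by
  induction M with
  | zero => simp
  | succ M ih =>
    rw [sum_range_succ]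
    have h1 : 0 ≤ √(M:ℝ) := Real.sqrt_nonneg _
    have h2 : 0 < √((1:ℝ)+M) := Real.sqrt_pos.2 (by positivity)
    have h3 : √(M:ℝ)^2 = M := Real.sq_sqrt (by positivity)
    have h4 : √((1:ℝ)+M)^2 = 1+M := Real.sq_sqrt (by positivity)
    have h5 : 1 / √((1:ℝ)+M) ≤ 2*√((1:ℝ)+M) - 2*√(M:ℝ) := by
      rw [div_le_iff₀ h2]
      nlinarith [sq_nonneg (√((1:ℝ)+M) - √(M:ℝ))]
    push_cast
    rw [add_comm (M:ℝ) 1]
    linarith

theorem half_step (w : ℕ → ℝ) (a T : ℝ) (n m : ℕ) (hm : m ≤ n + 1) (hT : 0 ≤ T)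
    (h : ∀ y < m, a * w y * (√((1:ℝ)+n) * √((1:ℝ)+y)) ≤ T) :
    a * ∑ y ∈ range m, w y ≤ 2 * T := by
  have hn : 0 < √((1:ℝ)+n) := Real.sqrt_pos.2 (by positivity)
  have h1 : ∀ y ∈ range m, a * w y ≤ T / √((1:ℝ)+n) * (1 / √((1:ℝ) + y)) := by
    intro y hy
    have hy0 : 0 < √((1:ℝ)+y) := Real.sqrt_pos.2 (by positivity)
    rw [div_mul_div_comm, mul_one, le_div_iff₀ (by positivity)]
    exact h y (mem_range.1 hy)
  calc a * ∑ y ∈ range m, w y = ∑ y ∈ range m, a * w y := by rw [mul_sum]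
    _ ≤ ∑ y ∈ range m, T / √((1:ℝ)+n) * (1 / √((1:ℝ) + y)) := sum_le_sum h1
    _ = T / √((1:ℝ)+n) * ∑ y ∈ range m, 1 / √((1:ℝ) + y) := by rw [mul_sum]
    _ ≤ T / √((1:ℝ)+n) * (2 * √m) := by
        apply mul_le_mul_of_nonneg_left (sum_inv_sqrt m) (by positivity)
    _ ≤ T / √((1:ℝ)+n) * (2 * √((1:ℝ)+n)) := by
        apply mul_le_mul_of_nonneg_left _ (by positivity)
        have : √(m:ℝ) ≤ √((1:ℝ)+n) := Real.sqrt_le_sqrt (by
          have : (m:ℝ) ≤ ((n+1 : ℕ):ℝ) := by exact_mod_cast hm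
          push_cast at this; linarith)
        linarith
    _ = 2 * T := by field_simp

theorem one_dim_aux (u v H : ℕ → ℝ) (hu : ∀ x, 0 ≤ u x) (hv : ∀ x, 0 ≤ v x)
    (hH : ∀ z, 0 ≤ H z) (N : ℕ)
    (h : ∀ x < N + 1, ∀ y < N + 1, ∀ z, (z ≤ 4*x ∨ z ≤ 4*y) →
      u x * v y * (√((1:ℝ)+x) * √((1:ℝ)+y)) ≤ H z) :
    (∑ x ∈ range (N+1), u x) * (∑ y ∈ range (N+1), v y) ≤ ∑ z ∈ range (4*N+1), H z := by
  induction N with
  | zero =>
    have := h 0 (by norm_num) 0 (by norm_num) 0 (by norm_num)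
    simpa using this
  | succ N ih =>
    have ih' := ih (fun x hx y hy z hz => h x (by omega) y (by omega) z hz)
    set U := ∑ x ∈ range (N+1), u x with hU
    set V := ∑ y ∈ range (N+1), v y with hV
    have h1 : ∀ z ≤ 4*(N+1), u (N+1) * ∑ y ∈ range (N+1+1), v y ≤ 2 * H z := by
      intro z hz
      apply half_step v (u (N+1)) (H z) (N+1) (N+1+1) le_rfl (hH z)
      intro y hy
      exact h (N+1) (by omega) y hy z (Or.inl hz)
    have h2 : ∀ z ≤ 4*(N+1), v (N+1) * U ≤ 2 * H z := by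
      intro z hz
      apply half_step u (v (N+1)) (H z) (N+1) (N+1) (by omega) (hH z)
      intro x hx
      have := h x (by omega) (N+1) (by omega) z (Or.inr hz)
      calc v (N+1) * u x * (√((1:ℝ)+((N+1:ℕ):ℝ)) * √((1:ℝ)+x))
          = u x * v (N+1) * (√((1:ℝ)+x) * √((1:ℝ)+((N+1:ℕ):ℝ))) := by ring
        _ ≤ H z := this
    have h3 : (∑ x ∈ range (N+1+1), u x) * (∑ y ∈ range (N+1+1), v y)
        = U * V + (u (N+1) * ∑ y ∈ range (N+1+1), v y) + v (N+1) * U := by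
      rw [sum_range_succ (fun x => u x) (N+1), sum_range_succ (fun x => v x) (N+1), ← hU, ← hV]
      ring
    have h4 : ∀ z ≤ 4*(N+1), (u (N+1) * ∑ y ∈ range (N+1+1), v y) + v (N+1) * U ≤ 4 * H z := by
      intro z hz
      linarith [h1 z hz, h2 z hz]
    have e : 4*(N+1)+1 = 4*N+1+1+1+1+1 := by ring
    have e2 : ∑ z ∈ range (4*(N+1)+1), H z = (∑ z ∈ range (4*N+1), H z) + H (4*N+1) +
        H (4*N+1+1) + H (4*N+1+1+1) + H (4*N+1+1+1+1) := by
      rw [e, sum_range_succ, sum_range_succ, sum_range_succ, sum_range_succ]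
    rw [h3, e2]
    have a1 := h4 (4*N+1) (by omega)
    have a2 := h4 (4*N+1+1) (by omega)
    have a3 := h4 (4*N+1+1+1) (by omega)
    have a4 := h4 (4*N+1+1+1+1) (by omega)
    generalize u (N+1) * ∑ y ∈ range (N+1+1), v y = W at a1 a2 a3 a4 ⊢
    linarith

theorem one_dim (u v H : ℕ → ℝ) (hu : ∀ x, 0 ≤ u x) (hv : ∀ x, 0 ≤ v x)
    (hH : ∀ z, 0 ≤ H z) (N : ℕ)
    (h : ∀ x < N, ∀ y < N, ∀ z, (z ≤ 4*x ∨ z ≤ 4*y) →
      u x * v y * (√((1:ℝ)+x) * √((1:ℝ)+y)) ≤ H z) :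
    (∑ x ∈ range N, u x) * (∑ y ∈ range N, v y) ≤ ∑ z ∈ range (4*N), H z := by
  rcases N with _ | N
  · simp
  · refine le_trans (one_dim_aux u v H hu hv hH N h) ?_
    apply sum_le_sum_of_subset_of_nonneg
    · intro z hz
      simp only [mem_range] at hz ⊢
      omega
    · intro z _ _
      exact hH z

/-- iterated sums over boxes -/
noncomputable def S : (d : ℕ) → ℕ → ((Fin d → ℕ) → ℝ) → ℝ
  | 0, _, f => f Fin.elim0
  | d+1, N, f => ∑ j ∈ range N, S d N (fun a => f (Fin.cons j a))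

theorem S_nonneg (d N : ℕ) (f : (Fin d → ℕ) → ℝ) (hf : ∀ x, 0 ≤ f x) : 0 ≤ S d N f := by
  induction d with
  | zero => exact hf _
  | succ d ih => exact sum_nonneg (fun j _ => ih _ (fun a => hf _))

/-- The functional inequality. -/
theorem functional (d N : ℕ) : ∀ (f g h : (Fin d → ℕ) → ℝ) (b c : ℝ), (∀ x, 0 ≤ f x) →
    (∀ x, 0 ≤ g x) → (∀ x, 0 ≤ h x) → 0 ≤ b → 0 ≤ c →
    (∀ x, f x * ∏ k, ((1:ℝ) + x k) ≤ b) → (∀ x, g x * ∏ k, ((1:ℝ) + x k) ≤ c) →
    (∀ x y z : Fin d → ℕ, (∀ k, z k ≤ 4 * x k ∨ z k ≤ 4 * y k) → f x * g y ≤ h z ^ 2) →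
    S d N f * S d N g ≤ S d (4*N) h * √(b * c) := by
  induction d with
  | zero =>
    intro f g h b c hf hg hh hb hc hfb hgc H
    simp only [S]
    have h1 := H Fin.elim0 Fin.elim0 Fin.elim0 (fun k => k.elim0)
    have h2 := hfb Fin.elim0
    have h3 := hgc Fin.elim0
    simp only [univ_eq_empty, prod_empty, mul_one] at h2 h3
    set p := f Fin.elim0 * g Fin.elim0
    have hp : 0 ≤ p := mul_nonneg (hf _) (hg _)
    have h4 : p ≤ b * c := mul_le_mul h2 h3 (hg _) hb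
    have h5 : √p ≤ √(b*c) := Real.sqrt_le_sqrt h4
    have h6 : √p ≤ h Fin.elim0 := by
      rw [show h Fin.elim0 = √(h Fin.elim0 ^ 2) from (Real.sqrt_sq (hh _)).symm]
      exact Real.sqrt_le_sqrt h1
    calc p = √p * √p := (Real.mul_self_sqrt hp).symm
      _ ≤ h Fin.elim0 * √(b*c) := mul_le_mul h6 h5 (Real.sqrt_nonneg _) (hh _)
  | succ d ih =>
    intro f g h b c hf hg hh hb hc hfb hgc H
    simp only [S]
    have e0 : (∑ j ∈ range (4*N), S d (4*N) (fun a => h (Fin.cons j a))) * √(b*c) =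
        ∑ j ∈ range (4*N), S d (4*N) (fun a => h (Fin.cons j a)) * √(b*c) := by rw [sum_mul]
    rw [e0]
    apply one_dim (fun j => S d N (fun a => f (Fin.cons j a)))
      (fun j => S d N (fun a => g (Fin.cons j a)))
      (fun j => S d (4*N) (fun a => h (Fin.cons j a)) * √(b*c))
      (fun j => S_nonneg _ _ _ (fun a => hf _)) (fun j => S_nonneg _ _ _ (fun a => hg _))
      (fun j => mul_nonneg (S_nonneg _ _ _ (fun a => hh _)) (Real.sqrt_nonneg _))
    intro x _ y _ z hz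
    have hx0 : (0:ℝ) < 1 + x := by positivity
    have hy0 : (0:ℝ) < 1 + y := by positivity
    have key := ih (fun a => f (Fin.cons x a)) (fun a => g (Fin.cons y a))
      (fun a => h (Fin.cons z a)) (b / (1+x)) (c / (1+y)) (fun a => hf _) (fun a => hg _)
      (fun a => hh _) (by positivity) (by positivity)
      (by
        intro a
        have := hfb (Fin.cons x a)
        rw [Fin.prod_univ_succ] at this
        simp only [Fin.cons_zero, Fin.cons_succ] at this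
        rw [le_div_iff₀ hx0]
        linarith)
      (by
        intro a
        have := hgc (Fin.cons y a)
        rw [Fin.prod_univ_succ] at this
        simp only [Fin.cons_zero, Fin.cons_succ] at this
        rw [le_div_iff₀ hy0]
        linarith)
      (by
        intro p q r hr
        apply H
        intro k
        refine Fin.cases ?_ (fun k => ?_) k
        · simpa using hz
        · simpa using hr k)
    have e1 : √(b / (1+x) * (c / (1+y))) * (√((1:ℝ)+x) * √((1:ℝ)+y)) = √(b*c) := by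
      rw [← Real.sqrt_mul hx0.le, ← Real.sqrt_mul (by positivity)]
      congr 1
      field_simp
    calc S d N (fun a => f (Fin.cons x a)) * S d N (fun a => g (Fin.cons y a)) *
          (√((1:ℝ)+x) * √((1:ℝ)+y))
        ≤ S d (4*N) (fun a => h (Fin.cons z a)) * √(b / (1+x) * (c / (1+y))) *
          (√((1:ℝ)+x) * √((1:ℝ)+y)) := by
          apply mul_le_mul_of_nonneg_right key (by positivity)
      _ = S d (4*N) (fun a => h (Fin.cons z a)) * √(b*c) := by
          rw [mul_assoc, e1]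

end Q239.RT
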