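import Pool.Agent.Q239.RT.Sharp

/-!
# Homogeneous subsets over a torsion-free quotient
-/

set_option autoImplicit false

namespace Q239.RT

open Finset
open scoped Pointwise

section unif

variable {G X : Type*} [DecidableEq G] [DecidableEq X] [AddCommGroup G] [AddCommGroup X]

theorem fib_sum (e : G →+ X) (P Q : Finset G) (m : ℕ)
    (hP : ∀ v ∈ P.image e, m ≤ (P.filter (fun x => e x = v)).card) :
    m * (P.image e + Q.image e).card ≤ (P + Q).card := by
  rw [card_eq_sum_card_fiberwise (s := P + Q) (f := e) (t := P.image e + Q.image e)]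
  · rw [mul_comm, ← smul_eq_mul, ← sum_const]
    refine sum_le_sum fun w hw => ?_
    obtain ⟨v, hv, v', hv', rfl⟩ := mem_add.1 hw
    obtain ⟨y, hy, rfl⟩ := mem_image.1 hv'
    refine (hP v hv).trans ?_
    refine card_le_card_of_injOn (fun x => x + y) (fun x hx => ?_) (fun x _ z _ h => ?_)
    · obtain ⟨h1, h2⟩ := mem_filter.1 (mem_coe.1 hx)
      exact mem_coe.2 (mem_filter.2 ⟨add_mem_add h1 hy, by rw [map_add, h2]⟩)
    · exact add_right_cancel h
  · intro z hz
    obtain ⟨x, hx, y, hy, rfl⟩ := mem_add.1 (mem_coe.1 hz)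
    rw [map_add]
    exact mem_coe.2 (add_mem_add (mem_image_of_mem _ hx) (mem_image_of_mem _ hy))

theorem card_unif (e : G →+ X) (P : Finset G) (m : ℕ)
    (hP : ∀ v ∈ P.image e, (P.filter (fun x => e x = v)).card = m) :
    P.card = m * (P.image e).card := by
  rw [card_eq_sum_card_fiberwise (s := P) (f := e) (t := P.image e)
    (fun x hx => mem_coe.2 (mem_image_of_mem _ (mem_coe.1 hx))), sum_congr rfl hP, sum_const,
    smul_eq_mul, mul_comm]

theorem sum_inv_sqrt2 (M : ℕ) : ∑ m ∈ range M, 1 / Real.sqrt ((m : ℝ) + 1) ≤ 2 * Real.sqrt M := by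
  induction M with
  | zero => simp
  | succ M ih =>
    rw [sum_range_succ]
    have h1 : 1 / Real.sqrt ((M : ℝ) + 1) ≤
        2 * (Real.sqrt ((M : ℝ) + 1) - Real.sqrt M) := by
      have h2 : 0 < Real.sqrt ((M : ℝ) + 1) := Real.sqrt_pos.2 (by positivity)
      rw [div_le_iff₀ h2]
      have h3 := Real.mul_self_sqrt (show (0:ℝ) ≤ (M : ℝ) + 1 by positivity)
      have h4 := Real.mul_self_sqrt (show (0:ℝ) ≤ (M : ℝ) by positivity)
      nlinarith [sq_nonneg (Real.sqrt ((M : ℝ) + 1) - Real.sqrt M)]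
    push_cast
    linarith

theorem uniform (e : G →+ X) (A : Finset G) (hA : A.Nonempty) (K : ℝ)
    (hK : ((A + A).card : ℝ) ≤ K * A.card) :
    ∃ A' ⊆ A, ∃ m : ℕ, A'.Nonempty ∧
      (∀ v ∈ A'.image e, (A'.filter (fun x => e x = v)).card = m) ∧
      (A.card : ℝ) ≤ 4 * K * A'.card := by
  classical
  obtain ⟨V, hV⟩ : ∃ V, V = A.image e := ⟨_, rfl⟩
  have hVne : V.Nonempty := by rw [hV]; exact hA.image _
  obtain ⟨v0, hv0, hmax⟩ := exists_max_image V (fun v => (A.filter (fun x => e x = v)).card) hVne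
  set a : X → ℕ := fun v => (A.filter (fun x => e x = v)).card with ha
  have hA0 : (0:ℝ) < A.card := by exact_mod_cast hA.card_pos
  have hAA : (A.card : ℝ) ≤ (A + A).card := by exact_mod_cast card_le_card_add_right hA
  have hK0 : 0 < K := by
    by_contra h
    push Not at h
    nlinarith
  set M := a v0 with hM
  have ha1 : ∀ v ∈ V, 1 ≤ a v := by
    intro v hv
    rw [hV] at hv
    obtain ⟨x, hx, rfl⟩ := mem_image.1 hv
    exact card_pos.2 ⟨x, mem_filter.2 ⟨hx, rfl⟩⟩
  have hM1 : 1 ≤ M := ha1 v0 hv0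
  have hMV : M * V.card ≤ (A + A).card := by
    set P := A.filter (fun x => e x = v0) with hP
    have h1 : P.image e = {v0} := by
      ext v
      rw [mem_image, mem_singleton]
      constructor
      · rintro ⟨x, hx, rfl⟩; exact (mem_filter.1 hx).2
      · rintro rfl
        obtain ⟨x, hx⟩ := card_pos.1 hM1
        exact ⟨x, hx, (mem_filter.1 hx).2⟩
    have h2 := fib_sum e P A M (by
      intro v hv
      rw [h1, mem_singleton] at hv
      subst hv
      have : P.filter (fun x => e x = v) = P := by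
        rw [hP, filter_filter]; simp
      rw [this])
    rw [h1, ← hV, singleton_add, card_vadd_finset] at h2
    exact h2.trans (card_le_card (add_subset_add_right (filter_subset _ _)))
  set c : ℕ → ℕ := fun m => (V.filter (fun v => m < a v)).card with hc
  have hsum : A.card = ∑ m ∈ range M, c m := by
    have h1 : A.card = ∑ v ∈ V, a v :=
      card_eq_sum_card_fiberwise (fun x hx => by
        rw [hV]; exact mem_coe.2 (mem_image_of_mem _ (mem_coe.1 hx)))
    have h2 : ∀ v ∈ V, a v = ∑ m ∈ range M, if m < a v then 1 else 0 := by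
      intro v hv
      rw [← card_filter]
      have : (range M).filter (fun m => m < a v) = range (a v) := by
        ext m
        have := hmax v hv
        simp only [mem_filter, mem_range]
        constructor
        · rintro ⟨_, h⟩; exact h
        · intro h; exact ⟨lt_of_lt_of_le h this, h⟩
      rw [this, card_range]
    rw [h1, sum_congr rfl h2, sum_comm]
    refine sum_congr rfl fun m _ => ?_
    rw [hc, ← card_filter]
  obtain ⟨m0, hm0, hmax'⟩ := exists_max_image (range M) (fun m => (m + 1) * c m)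
    ⟨0, mem_range.2 hM1⟩
  obtain ⟨β, hβ⟩ : ∃ β : ℕ, β = (m0 + 1) * c m0 := ⟨_, rfl⟩
  have hcm : ∀ m ∈ range M, (c m : ℝ) ≤ Real.sqrt (V.card * β) * (1 / Real.sqrt ((m : ℝ) + 1)) := by
    intro m hm
    have h1 : (((m + 1) * c m : ℕ) : ℝ) ≤ β := by
      rw [hβ]; exact Nat.cast_le.2 (hmax' m hm)
    have h2 : (c m : ℝ) ≤ V.card := by exact_mod_cast card_filter_le _ _
    have h3 : 0 < Real.sqrt ((m : ℝ) + 1) := Real.sqrt_pos.2 (by positivity)
    rw [mul_one_div, le_div_iff₀ h3, ← Real.sqrt_sq (Nat.cast_nonneg (c m) : (0:ℝ) ≤ c m),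
      ← Real.sqrt_mul (sq_nonneg _)]
    apply Real.sqrt_le_sqrt
    push_cast at h1
    have h4 : (0:ℝ) ≤ c m := Nat.cast_nonneg _
    calc (c m : ℝ) ^ 2 * ((m : ℝ) + 1) = c m * (((m : ℝ) + 1) * c m) := by ring
      _ ≤ V.card * β := mul_le_mul h2 h1 (by positivity) (Nat.cast_nonneg _)
  have hAle : (A.card : ℝ) ≤ Real.sqrt (V.card * β) * (2 * Real.sqrt M) := by
    rw [hsum]
    push_cast
    calc ∑ m ∈ range M, (c m : ℝ) ≤
        ∑ m ∈ range M, Real.sqrt (V.card * β) * (1 / Real.sqrt ((m : ℝ) + 1)) := sum_le_sum hcm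
      _ = Real.sqrt (V.card * β) * ∑ m ∈ range M, (1 / Real.sqrt ((m : ℝ) + 1)) := by
        rw [mul_sum]
      _ ≤ _ := mul_le_mul_of_nonneg_left (sum_inv_sqrt2 M) (Real.sqrt_nonneg _)
  have hsq : (A.card : ℝ) ^ 2 ≤ 4 * (M * V.card) * β := by
    have h1 := pow_le_pow_left₀ hA0.le hAle 2
    have h2 : (Real.sqrt (V.card * β) * (2 * Real.sqrt M)) ^ 2 = 4 * (M * V.card) * β := by
      rw [mul_pow, mul_pow, Real.sq_sqrt (by positivity), Real.sq_sqrt (by positivity)]
      ring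
    rw [h2] at h1
    exact h1
  have hAβ : (A.card : ℝ) ≤ 4 * K * β := by
    have h1 : ((M : ℝ) * V.card) ≤ K * A.card := by
      have : ((M * V.card : ℕ) : ℝ) ≤ (A + A).card := Nat.cast_le.2 hMV
      push_cast at this
      exact this.trans hK
    have h2 : (A.card : ℝ) * A.card ≤ (4 * K * β) * A.card := by
      calc (A.card : ℝ) * A.card = (A.card : ℝ) ^ 2 := by ring
        _ ≤ 4 * (M * V.card) * β := hsq
        _ ≤ 4 * (K * A.card) * β := by gcongr
        _ = (4 * K * β) * A.card := by ring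
    exact le_of_mul_le_mul_right h2 hA0
  -- the subset
  obtain ⟨V', hV'⟩ : ∃ V', V' = V.filter (fun v => m0 < a v) := ⟨_, rfl⟩
  have hex : ∀ v : X, ∃ F : Finset G, v ∈ V' → F ⊆ A.filter (fun x => e x = v) ∧
      F.card = m0 + 1 := by
    intro v
    by_cases hv : v ∈ V'
    · rw [hV'] at hv
      obtain ⟨F, hF1, hF2⟩ := exists_subset_card_eq (s := A.filter (fun x => e x = v))
        (n := m0 + 1) (mem_filter.1 hv).2
      exact ⟨F, fun _ => ⟨hF1, hF2⟩⟩
    · exact ⟨∅, fun h => absurd h hv⟩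
  choose F hF using hex
  set A' := V'.biUnion F with hA'
  have hmem : ∀ x, x ∈ A' ↔ e x ∈ V' ∧ x ∈ F (e x) := by
    intro x
    rw [hA', mem_biUnion]
    constructor
    · rintro ⟨v, hv, hx⟩
      have h1 : e x = v := (mem_filter.1 ((hF v hv).1 hx)).2
      rw [h1]; exact ⟨hv, hx⟩
    · rintro ⟨h1, h2⟩; exact ⟨_, h1, h2⟩
  have hfibA : ∀ v ∈ V', A'.filter (fun x => e x = v) = F v := by
    intro v hv
    ext x
    rw [mem_filter, hmem]
    constructor
    · rintro ⟨⟨_, h2⟩, rfl⟩; exact h2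
    · intro hx
      have h1 : e x = v := (mem_filter.1 ((hF v hv).1 hx)).2
      subst h1
      exact ⟨⟨hv, hx⟩, rfl⟩
  have himg : A'.image e = V' := by
    ext v
    rw [mem_image]
    constructor
    · rintro ⟨x, hx, rfl⟩; exact ((hmem x).1 hx).1
    · intro hv
      have h1 : (F v).Nonempty := card_pos.1 (by rw [(hF v hv).2]; omega)
      obtain ⟨x, hx⟩ := h1
      have h2 : e x = v := (mem_filter.1 ((hF v hv).1 hx)).2
      exact ⟨x, (hmem x).2 (by rw [h2]; exact ⟨hv, hx⟩), h2⟩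
  have hunif : ∀ v ∈ A'.image e, (A'.filter (fun x => e x = v)).card = m0 + 1 := by
    intro v hv
    rw [himg] at hv
    rw [hfibA v hv]; exact (hF v hv).2
  have hcard : A'.card = β := by
    rw [card_unif e A' _ hunif, himg, hβ, hV', hc]
  refine ⟨A', ?_, m0 + 1, ?_, hunif, ?_⟩
  · intro x hx
    have h1 := (hmem x).1 hx
    exact (mem_filter.1 ((hF _ h1.1).1 h1.2)).1
  · rw [← card_pos, hcard]
    have h1 : (0:ℝ) < 4 * K * β := lt_of_lt_of_le hA0 hAβ
    have h2 : (0:ℝ) < β := by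
      by_contra h
      push Not at h
      nlinarith
    exact_mod_cast h2
  · rw [hcard]; exact hAβ

theorem sum_unif (e : G →+ X) (P : Finset G) (m : ℕ)
    (hP : ∀ v ∈ P.image e, (P.filter (fun x => e x = v)).card = m) (f : X → ℝ) :
    ∑ x ∈ P, f (e x) = m * ∑ w ∈ P.image e, f w := by
  rw [← sum_fiberwise_of_maps_to (g := e) (t := P.image e) (fun x hx => mem_image_of_mem _ hx),
    mul_sum]
  refine sum_congr rfl fun w hw => ?_
  rw [sum_congr rfl (fun x hx => by rw [(mem_filter.1 hx).2] : ∀ x ∈ P.filter (fun x => e x = w),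
    f (e x) = f w), sum_const, hP w hw, nsmul_eq_mul]

end unif

section gen

variable {G Γ : Type*} [DecidableEq G] [DecidableEq Γ] [AddCommGroup G] [AddCommGroup Γ] {d : ℕ}

/-- the elements of `B` with the same values of all `φ k` as `b` -/
def kfib (φ : Fin d → (G →+ Γ)) (B : Finset G) (b : G) : Finset G :=
  B.filter (fun x => ∀ k, φ k x = φ k b)

/-- all the homomorphisms together -/
def embH (φ : Fin d → (G →+ Γ)) : G →+ (Fin d → Γ) := AddMonoidHom.mk' (emb φ) (emb_add φ)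

theorem kfib_eq (φ : Fin d → (G →+ Γ)) (B : Finset G) (b : G) :
    kfib φ B b = B.filter (fun x => embH φ x = embH φ b) := by
  ext x
  rw [kfib, mem_filter, mem_filter]
  constructor
  · rintro ⟨h1, h2⟩; exact ⟨h1, funext h2⟩
  · rintro ⟨h1, h2⟩; exact ⟨h1, fun k => congrFun h2 k⟩

/-- the coordinates -/
def ev (Γ : Type*) [AddCommGroup Γ] (d : ℕ) (k : Fin d) : (Fin d → Γ) →+ Γ :=
  Pi.evalAddMonoidHom (fun _ => Γ) k

theorem fibre_ev (W : Finset (Fin d → Γ)) (w : Fin d → Γ) (k : Fin d) :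
    fibre (ev Γ d) W w k = fib W w k := rfl

theorem fibre_img (φ : Fin d → (G →+ Γ)) (B : Finset G) (b : G) (k : Fin d) :
    fibre (ev Γ d) (B.image (embH φ)) (embH φ b) k = fibre φ B b k := by
  rw [fibre_ev]
  exact fib_image φ B b k

theorem exists_gen [IsAddTorsionFree Γ] (φ : Fin d → (G →+ Γ)) (A : Finset G) (hA : A.Nonempty)
    (K : ℝ) (hK : ((A + A).card : ℝ) ≤ K * A.card) :
    ∃ B ⊆ A, ∃ (n : Fin d → ℕ) (m : ℕ), B.Nonempty ∧
      (∀ b ∈ B, ∀ k, (fibre φ B b k).card = n k) ∧ (∀ b ∈ B, (kfib φ B b).card = m) ∧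
      (A.card : ℝ) ≤ 4 ^ 9 * K ^ 17 * B.card ∧ ((B + B).card : ℝ) ≤ 4 ^ 9 * K ^ 18 * B.card := by
  obtain ⟨A', hA'A, m, hA', hun, hcard⟩ := uniform (embH φ) A hA K hK
  have hA0 : (0:ℝ) < A.card := by exact_mod_cast hA.card_pos
  have hAA : (A.card : ℝ) ≤ (A + A).card := by exact_mod_cast card_le_card_add_right hA
  have hK0 : 0 < K := by
    by_contra h
    push Not at h
    nlinarith
  obtain ⟨V, hV⟩ : ∃ V, V = A'.image (embH φ) := ⟨_, rfl⟩
  rw [← hV] at hun
  have hun' : ∀ v ∈ A'.image (embH φ), (A'.filter (fun x => embH φ x = v)).card = m := by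
    rw [← hV]; exact hun
  have hVne : V.Nonempty := by rw [hV]; exact hA'.image _
  have hA'c : (A'.card : ℝ) = m * V.card := by
    have := card_unif (embH φ) A' m hun'
    rw [this, hV, Nat.cast_mul]
  have hA'0 : (0:ℝ) < A'.card := by exact_mod_cast hA'.card_pos
  have hm0 : (0:ℝ) < m := by
    by_contra h
    push Not at h
    have : (m:ℝ) = 0 := le_antisymm h (Nat.cast_nonneg _)
    rw [hA'c, this, zero_mul] at hA'0
    exact lt_irrefl _ hA'0
  have hVV : ((V + V).card : ℝ) ≤ (4 * K ^ 2) * V.card := by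
    have h1 := fib_sum (embH φ) A' A' m (fun v hv => (hun' v hv).ge)
    rw [← hV] at h1
    have h2 : ((m * (V + V).card : ℕ) : ℝ) ≤ (A + A).card :=
      Nat.cast_le.2 (h1.trans (card_le_card (add_subset_add hA'A hA'A)))
    push_cast at h2
    have h3 : (m:ℝ) * (V + V).card ≤ m * ((4 * K ^ 2) * V.card) := by
      calc (m:ℝ) * (V + V).card ≤ K * A.card := h2.trans hK
        _ ≤ K * (4 * K * A'.card) := mul_le_mul_of_nonneg_left hcard hK0.le
        _ = m * ((4 * K ^ 2) * V.card) := by rw [hA'c]; ring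
    exact le_of_mul_le_mul_left h3 hm0
  obtain ⟨W, hWV, n, hW, hfibW, -, hK'⟩ :=
    exists_homogeneousK (ev Γ d) (fun x hx => funext hx) V hVne
  obtain ⟨h8, -⟩ := hK' (4 * K ^ 2) hVV
  obtain ⟨B, hB⟩ : ∃ B, B = A'.filter (fun x => embH φ x ∈ W) := ⟨_, rfl⟩
  have himg : B.image (embH φ) = W := by
    ext w
    rw [mem_image]
    constructor
    · rintro ⟨x, hx, rfl⟩
      rw [hB] at hx
      exact (mem_filter.1 hx).2
    · intro hw
      have h1 := hWV hw
      rw [hV] at h1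
      obtain ⟨x, hx, rfl⟩ := mem_image.1 h1
      exact ⟨x, by rw [hB]; exact mem_filter.2 ⟨hx, hw⟩, rfl⟩
  have hBA' : B ⊆ A' := by rw [hB]; exact filter_subset _ _
  have hBne : B.Nonempty := by
    rw [← himg] at hW
    exact image_nonempty.1 hW
  have hfilt : ∀ w ∈ W, B.filter (fun x => embH φ x = w) = A'.filter (fun x => embH φ x = w) := by
    intro w hw
    ext x
    rw [mem_filter, mem_filter, hB, mem_filter]
    constructor
    · rintro ⟨⟨h1, _⟩, h2⟩; exact ⟨h1, h2⟩
    · rintro ⟨h1, rfl⟩; exact ⟨⟨h1, hw⟩, rfl⟩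
  have hBun : ∀ w ∈ B.image (embH φ), (B.filter (fun x => embH φ x = w)).card = m := by
    intro w hw
    rw [himg] at hw
    rw [hfilt w hw]
    exact hun w (hWV hw)
  have hBc : (B.card : ℝ) = m * W.card := by
    rw [card_unif (embH φ) B m hBun, himg, Nat.cast_mul]
  have hAB : (A.card : ℝ) ≤ 4 ^ 9 * K ^ 17 * B.card := by
    calc (A.card : ℝ) ≤ 4 * K * A'.card := hcard
      _ = 4 * K * (m * V.card) := by rw [hA'c]
      _ ≤ 4 * K * (m * ((4 * K ^ 2) ^ 8 * W.card)) := by gcongr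
      _ = 4 ^ 9 * K ^ 17 * B.card := by rw [hBc]; ring
  refine ⟨B, hBA'.trans hA'A, n, m, hBne, ?_, ?_, hAB, ?_⟩
  · intro b hb k
    rw [← fibre_img, himg]
    exact hfibW _ (by rw [← himg]; exact mem_image_of_mem _ hb) k
  · intro b hb
    rw [kfib_eq]
    exact hBun _ (mem_image_of_mem _ hb)
  · have h10 : ((B + B).card : ℝ) ≤ (A + A).card := by
      exact_mod_cast card_le_card (add_subset_add (hBA'.trans hA'A) (hBA'.trans hA'A))
    calc ((B + B).card : ℝ) ≤ K * A.card := h10.trans hK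
      _ ≤ K * (4 ^ 9 * K ^ 17 * B.card) := mul_le_mul_of_nonneg_left hAB hK0.le
      _ = 4 ^ 9 * K ^ 18 * B.card := by ring

theorem rigid_gen [IsAddTorsionFree Γ] (φ : Fin d → (G →+ Γ)) (B : Finset G) (n : Fin d → ℕ)
    (m : ℕ) (hB : B.Nonempty) (hfib : ∀ b ∈ B, ∀ k, (fibre φ B b k).card = n k)
    (hk : ∀ b ∈ B, (kfib φ B b).card = m) (K : ℝ) (hBB : ((B + B).card : ℝ) ≤ K * B.card) :
      B.card = m * ∏ k, n k ∧
      (∀ x ∈ B, ∀ y ∈ B, (∀ k, 2 ≤ n k → φ k x = φ k y) → ∀ k, φ k x = φ k y) ∧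
      ((univ.filter (fun k => 2 ≤ n k)).card : ℝ) * Real.log (3 / 2) ≤ Real.log K ∧
      (∀ k, ∀ b ∈ B, ∀ b' ∈ B, Real.log (n k) ≤ ent (fibre φ B b k) (fibre φ B b' k)) ∧
      (∑ k, ∑ b ∈ B, ∑ b' ∈ B, (ent (fibre φ B b k) (fibre φ B b' k) - Real.log (n k)) ≤
        (B.card : ℝ) ^ 2 * Real.log K) ∧
      ∃ c : Fin d → G, (∀ k, c k ∈ B) ∧
        ∏ k, ((fibre φ B (c k) k + fibre φ B (c k) k).card : ℝ) ≤
          K ^ 2 * ∏ k, ((fibre φ B (c k) k).card : ℝ) := by
  have hun : ∀ w ∈ B.image (embH φ), (B.filter (fun x => embH φ x = w)).card = m := by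
    intro w hw
    obtain ⟨b, hb, rfl⟩ := mem_image.1 hw
    rw [← kfib_eq]
    exact hk b hb
  have hcard := card_unif (embH φ) B m hun
  obtain ⟨W, hW⟩ : ∃ W, W = B.image (embH φ) := ⟨_, rfl⟩
  rw [← hW] at hcard
  have hWne : W.Nonempty := by rw [hW]; exact hB.image _
  have hB0 : (0:ℝ) < B.card := by exact_mod_cast hB.card_pos
  have hBc : (B.card : ℝ) = m * W.card := by rw [hcard, Nat.cast_mul]
  have hm0 : (0:ℝ) < m := by
    by_contra h
    push Not at h
    have : (m:ℝ) = 0 := le_antisymm h (Nat.cast_nonneg _)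
    rw [hBc, this, zero_mul] at hB0
    exact lt_irrefl _ hB0
  have hWW : ((W + W).card : ℝ) ≤ K * W.card := by
    have h1 := fib_sum (embH φ) B B m (fun v hv => (hun v hv).ge)
    rw [← hW] at h1
    have h2 : ((m * (W + W).card : ℕ) : ℝ) ≤ (B + B).card := Nat.cast_le.2 h1
    push_cast at h2
    have h3 : (m:ℝ) * (W + W).card ≤ m * (K * W.card) := by
      calc (m:ℝ) * (W + W).card ≤ K * B.card := h2.trans hBB
        _ = m * (K * W.card) := by rw [hBc]; ring
    exact le_of_mul_le_mul_left h3 hm0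
  have hfW : ∀ b, ∀ k, fibre (ev Γ d) W (embH φ b) k = fibre φ B b k := by
    intro b k
    rw [hW]; exact fibre_img φ B b k
  have hfibW : ∀ w ∈ W, ∀ k, (fibre (ev Γ d) W w k).card = n k := by
    intro w hw k
    rw [hW] at hw
    obtain ⟨b, hb, rfl⟩ := mem_image.1 hw
    rw [hfW]; exact hfib b hb k
  have hmemW : ∀ b ∈ B, embH φ b ∈ W := fun b hb => by rw [hW]; exact mem_image_of_mem _ hb
  obtain ⟨r1, r2, r3, r4, r5, c, hc, r6⟩ :=
    rigidK (ev Γ d) (fun x hx => funext hx) W n hWne hfibW K hWW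
  refine ⟨by rw [hcard, r1], ?_, r3, ?_, ?_, ?_⟩
  · intro x hx y hy h
    have := r2 _ (hmemW x hx) _ (hmemW y hy) h
    exact fun k => congrFun this k
  · intro k b hb b' hb'
    have := r4 k _ (hmemW b hb) _ (hmemW b' hb')
    rwa [hfW, hfW] at this
  · have h1 : ∀ k, ∑ b ∈ B, ∑ b' ∈ B, (ent (fibre φ B b k) (fibre φ B b' k) - Real.log (n k)) =
        (m:ℝ) ^ 2 * ∑ w ∈ W, ∑ w' ∈ W, (ent (fibre (ev Γ d) W w k) (fibre (ev Γ d) W w' k) -
          Real.log (n k)) := by
      intro k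
      have e1 : ∀ b ∈ B, ∑ b' ∈ B, (ent (fibre φ B b k) (fibre φ B b' k) - Real.log (n k)) =
          m * ∑ w' ∈ W, (ent (fibre (ev Γ d) W (embH φ b) k) (fibre (ev Γ d) W w' k) -
            Real.log (n k)) := by
        intro b hb
        have := sum_unif (embH φ) B m hun (fun w' =>
          (ent (fibre (ev Γ d) W (embH φ b) k) (fibre (ev Γ d) W w' k) - Real.log (n k)))
        rw [← hW] at this
        rw [← this]
        refine sum_congr rfl fun b' _ => ?_
        rw [hfW, hfW]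
      rw [sum_congr rfl e1, ← mul_sum]
      have := sum_unif (embH φ) B m hun (fun w =>
        ∑ w' ∈ W, (ent (fibre (ev Γ d) W w k) (fibre (ev Γ d) W w' k) - Real.log (n k)))
      rw [← hW] at this
      rw [this]
      ring
    rw [sum_congr rfl fun k _ => h1 k, ← mul_sum]
    calc (m:ℝ) ^ 2 * ∑ k, ∑ w ∈ W, ∑ w' ∈ W, (ent (fibre (ev Γ d) W w k) (fibre (ev Γ d) W w' k) -
          Real.log (n k)) ≤ (m:ℝ) ^ 2 * ((W.card : ℝ) ^ 2 * Real.log K) :=
          mul_le_mul_of_nonneg_left r5 (by positivity)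
      _ = (B.card : ℝ) ^ 2 * Real.log K := by rw [hBc]; ring
  · have h2 : ∀ k, ∃ b ∈ B, embH φ b = c k := by
      intro k
      have := hc k
      rw [hW] at this
      obtain ⟨b, hb, h⟩ := mem_image.1 this
      exact ⟨b, hb, h⟩
    choose b hb hbc using h2
    refine ⟨b, hb, ?_⟩
    have h3 : ∀ k, fibre φ B (b k) k = fibre (ev Γ d) W (c k) k := by
      intro k
      rw [← hfW, hbc]
    simp only [h3]
    exact r6

end gen

end Q239.RT
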