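import Pool.Agent.Q239.RT.Gen
import Pool.Agent.H104.MC.Eqv

/-!
# The torsion-free case of the polynomial Freiman-Ruzsa conjecture and homogeneous sets
-/

set_option autoImplicit false

namespace Q239.RT

open Finset Pool.Agent.Y806.DF Q123.VP H104.MC
open scoped Pointwise

/-- the conclusion of Q1 with the constant `C` -/
def Concl {Γ : Type*} [AddCommGroup Γ] (A : Finset Γ) (K C : ℝ) : Prop :=
  ∃ (d : ℕ) (B : Set (Fin d → ℝ)) (ψ : (Fin d → ℤ) →+ Γ) (H : AddSubgroup Γ) (T : Finset Γ),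
    (d : ℝ) ≤ C * Real.log (2 * K) ∧ Body B ∧ Finite H ∧
      (lat B).ncard * Nat.card H ≤ A.card ∧ (T.card : ℝ) ≤ C * K ^ C ∧ Cov B ψ H T A

theorem concl_image {Y Z : Type*} [AddCommGroup Y] [AddCommGroup Z] [DecidableEq Z]
    (f : Y →+ Z) (hf : Function.Injective f) {A : Finset Y} {K C : ℝ} (h : Concl A K C) :
    Concl (A.image f) K C := by
  obtain ⟨d, B, ψ, H, T, h1, h2, h3, h4, h5, h6⟩ := h
  have hfin : Finite (H.map f) := by
    have : ((H : Set Y)).Finite := Set.toFinite _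
    exact (this.image f).subset (by rw [AddSubgroup.coe_map])
  have hcard : Nat.card (H.map f) = Nat.card H :=
    (Nat.card_congr (H.equivMapOfInjective f hf).toEquiv).symm
  refine ⟨d, B, f.comp ψ, H.map f, T.image f, h1, h2, hfin, ?_, ?_, ?_⟩
  · rw [hcard, card_image_of_injective _ hf]; exact h4
  · refine le_trans ?_ h5
    exact_mod_cast card_image_le
  · intro a ha
    obtain ⟨a', ha', rfl⟩ := mem_image.1 ha
    obtain ⟨t, ht, x, hx, k, hk, e⟩ := h6 a' ha'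
    refine ⟨f t, mem_image_of_mem _ ht, x, hx, f k, AddSubgroup.mem_map_of_mem f hk, ?_⟩
    rw [e, map_add, map_add]
    rfl

theorem conc_to_concl (N : ℕ) : ∃ D : ℝ, ∀ {Γ : Type} [AddCommGroup Γ] (K : ℝ)
    (A : Finset Γ), 1 ≤ K → Conc A ((2 * K) ^ N) → Concl A K D := by
  obtain ⟨D, hD1, hD2⟩ : ∃ D : ℕ, ((500 * (1 + N) : ℕ) : ℝ) ≤ (D : ℝ) ∧
      ((5000 * 2 ^ (N * 5000) + N * 5000 : ℕ) : ℝ) ≤ (D : ℝ) :=
    ⟨max (500 * (1 + N)) (5000 * 2 ^ (N * 5000) + N * 5000), by exact_mod_cast le_max_left _ _,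
      by exact_mod_cast le_max_right _ _⟩
  refine ⟨(D : ℝ), ?_⟩
  intro Γ _ K A hK1 hc
  have hK0 : 0 < K := by linarith
  have h2K : 1 ≤ 2 * K := by linarith
  obtain ⟨r, B, θ, H', T, h1, h2, h3, h4, h5, h6⟩ := hc
  have hlog0 : 0 ≤ Real.log (2 * K) := Real.log_nonneg h2K
  refine ⟨r, B, θ, H', T, ?_, h2, h3, h4, ?_, h6⟩
  · have h9 : Real.log (2 * (2 * K) ^ N) ≤ (1 + N : ℕ) * Real.log (2 * K) := by
      rw [← Real.log_pow]
      refine Real.log_le_log (by positivity) ?_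
      rw [pow_add, pow_one]
      exact mul_le_mul_of_nonneg_right (by linarith) (by positivity)
    calc (r : ℝ) ≤ 500 * Real.log (2 * (2 * K) ^ N) := h1
      _ ≤ 500 * ((1 + N : ℕ) * Real.log (2 * K)) := mul_le_mul_of_nonneg_left h9 (by norm_num)
      _ = ((500 * (1 + N) : ℕ) : ℝ) * Real.log (2 * K) := by push_cast; ring
      _ ≤ (D : ℝ) * Real.log (2 * K) := mul_le_mul_of_nonneg_right hD1 hlog0
  · have hD3 : ((5000 * 2 ^ (N * 5000) : ℕ) : ℝ) ≤ D := by
      refine le_trans ?_ hD2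
      exact_mod_cast Nat.le_add_right _ _
    have hD4 : ((N * 5000 : ℕ) : ℝ) ≤ D := by
      refine le_trans ?_ hD2
      exact_mod_cast Nat.le_add_left _ _
    calc (T.card : ℝ) ≤ 5000 * ((2 * K) ^ N) ^ 5000 := h5
      _ = ((5000 * 2 ^ (N * 5000) : ℕ) : ℝ) * K ^ (N * 5000) := by
        rw [← pow_mul, mul_pow]
        push_cast
        ring
      _ ≤ (D : ℝ) * K ^ ((D : ℕ) : ℝ) :=
        mul_le_mul hD3 (pow_le_rpow hK1 hD4) (by positivity) (Nat.cast_nonneg _)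

theorem up (C : ℝ) : ∃ D : ℝ, ∀ {Γ : Type} [AddCommGroup Γ] [DecidableEq Γ] (K : ℝ)
    (A B : Finset Γ), A.Nonempty → ((A + A).card : ℝ) ≤ K * A.card → B ⊆ A → B.Nonempty →
      (A.card : ℝ) ≤ 4 ^ 9 * K ^ 17 * B.card → Concl B (4 ^ 9 * K ^ 18) C → Concl A K D := by
  classical
  obtain ⟨n, hn1, hn, hCK⟩ := nat_const C
  obtain ⟨D, hD⟩ := conc_to_concl (341 * n)
  refine ⟨D, ?_⟩
  intro Γ _ _ K A B hA hK hBA hB hAB hc
  have hK1 := one_le_K hA hK
  have hK0 : 0 < K := by linarith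
  have h2K : 1 ≤ 2 * K := by linarith
  apply hD K A hK1
  have hK' : (4:ℝ) ^ 9 * K ^ 18 = (2 * K) ^ 18 := by rw [mul_pow]; norm_num
  rw [hK'] at hc
  obtain ⟨d, S, ψ, H, T, hd, hS, hH, hvol, hT, hcov⟩ := hc
  have hfin : (lat S).Finite := lat_finite hS.2.1.isBounded
  have hK9 : (1:ℝ) ≤ (2 * K) ^ 18 := one_le_pow₀ h2K
  have hT' : (T.card : ℝ) ≤ n * (2 * K) ^ (18 * n) := by
    refine (hT.trans (hCK _ hK9)).trans (le_of_eq ?_)
    rw [← pow_mul]
  obtain ⟨t, ht, ht2⟩ := pigeon T B B hB (fun t a => a - t ∈ img ψ H (lat S)) subset_rfl (by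
    intro a ha
    obtain ⟨t, ht, x, hx, h, hh, e⟩ := hcov a ha
    exact ⟨t, ht, x, hx, h, hh, by rw [e]; abel⟩)
  obtain ⟨M, hM⟩ : ∃ M : ℝ, M = (4 ^ 9 * K ^ 17) * (n * (2 * K) ^ (18 * n)) := ⟨_, rfl⟩
  have hn1r : (1:ℝ) ≤ n := by exact_mod_cast hn1
  have hM1 : 1 ≤ M := by
    rw [hM]
    have e1 : (1:ℝ) ≤ K ^ 17 := one_le_pow₀ hK1
    have e1' : (1:ℝ) ≤ 4 ^ 9 * K ^ 17 := by nlinarith
    have e2 : (1:ℝ) ≤ (2 * K) ^ (18 * n) := one_le_pow₀ h2K
    have e3 : (1:ℝ) ≤ n * (2 * K) ^ (18 * n) := by nlinarith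
    nlinarith
  have hA0 : (0:ℝ) ≤ A.card := Nat.cast_nonneg _
  have hBAr : (B.card : ℝ) ≤ A.card := by exact_mod_cast card_le_card hBA
  have hP : ((img ψ H (lat S)).ncard : ℝ) ≤ M * A.card := by
    have e1 := img_ncard_le hfin.toFinset ψ H
    rw [Set.Finite.coe_toFinset, ← Set.ncard_eq_toFinset_card _ hfin] at e1
    have e2 : ((img ψ H (lat S)).ncard : ℝ) ≤ B.card := by exact_mod_cast e1.trans hvol
    calc ((img ψ H (lat S)).ncard : ℝ) ≤ A.card := e2.trans hBAr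
      _ = 1 * A.card := (one_mul _).symm
      _ ≤ M * A.card := mul_le_mul_of_nonneg_right hM1 hA0
  have hmeet : (A.card : ℝ) ≤ M * ({a : Γ | a ∈ A ∧ a - t ∈ img ψ H (lat S)}.ncard : ℝ) := by
    have e1 : ((B.filter (fun a => a - t ∈ img ψ H (lat S))).card : ℝ) ≤
        ({a : Γ | a ∈ A ∧ a - t ∈ img ψ H (lat S)}.ncard : ℝ) := by
      have : (B.filter (fun a => a - t ∈ img ψ H (lat S))).card ≤
          {a : Γ | a ∈ A ∧ a - t ∈ img ψ H (lat S)}.ncard := by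
        rw [← Set.ncard_coe_finset]
        refine Set.ncard_le_ncard ?_ (A.finite_toSet.subset fun a ha => ha.1)
        intro a ha
        obtain ⟨h1, h2⟩ := mem_filter.1 (mem_coe.1 ha)
        exact ⟨hBA h1, h2⟩
      exact_mod_cast this
    have e2 : (B.card : ℝ) ≤ T.card * ((B.filter (fun a => a - t ∈ img ψ H (lat S))).card : ℝ) := by
      exact_mod_cast ht2
    calc (A.card : ℝ) ≤ (4 ^ 9 * K ^ 17) * B.card := hAB
      _ ≤ (4 ^ 9 * K ^ 17) * ((n * (2 * K) ^ (18 * n)) *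
          ({a : Γ | a ∈ A ∧ a - t ∈ img ψ H (lat S)}.ncard : ℝ)) := by
        refine mul_le_mul_of_nonneg_left (e2.trans ?_) (by positivity)
        exact mul_le_mul hT' e1 (Nat.cast_nonneg _) (by positivity)
      _ = M * ({a : Γ | a ∈ A ∧ a - t ∈ img ψ H (lat S)}.ncard : ℝ) := by rw [hM]; ring
  have hconc := conc_conv hS ψ H hA hK hP t hmeet
  refine hconc.mono (by positivity) ?_
  have hlog0 : 0 ≤ Real.log (2 * K) := Real.log_nonneg h2K
  have hd1 : (4685824 : ℝ) ^ d ≤ (2 * K) ^ (304 * n) := by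
    have e1 : Real.log 4685824 ≤ 16 := by
      have : Real.log 4685824 ≤ Real.log (2 ^ 23) := Real.log_le_log (by norm_num) (by norm_num)
      rw [Real.log_pow] at this
      have := Real.log_two_lt_d9
      push_cast at *
      linarith
    have e2 : Real.log (2 * (2 * K) ^ 18) ≤ 19 * Real.log (2 * K) := by
      have : Real.log (2 * (2 * K) ^ 18) ≤ Real.log ((2 * K) ^ 19) := by
        refine Real.log_le_log (by positivity) ?_
        rw [pow_succ' (2 * K) 18]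
        exact mul_le_mul_of_nonneg_right (by linarith) (by positivity)
      rw [Real.log_pow] at this
      exact_mod_cast this
    have e3 : 0 ≤ Real.log (2 * (2 * K) ^ 18) := Real.log_nonneg (by linarith)
    have e4 : (d : ℝ) ≤ n * (19 * Real.log (2 * K)) :=
      (hd.trans (mul_le_mul_of_nonneg_right hn e3)).trans
        (mul_le_mul_of_nonneg_left e2 (Nat.cast_nonneg _))
    refine (Real.log_le_log_iff (by positivity) (by positivity)).1 ?_
    rw [Real.log_pow, Real.log_pow]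
    calc (d : ℝ) * Real.log 4685824 ≤ d * 16 := mul_le_mul_of_nonneg_left e1 (Nat.cast_nonneg _)
      _ ≤ (n * (19 * Real.log (2 * K))) * 16 := mul_le_mul_of_nonneg_right e4 (by norm_num)
      _ = ((304 * n : ℕ) : ℝ) * Real.log (2 * K) := by push_cast; ring
  have hMK : M * K ≤ (2 * K) ^ (37 * n) := by
    have e1 : M * K = n * (2 * K) ^ (18 * n + 18) := by
      rw [hM, pow_add (2 * K) (18 * n) 18, mul_pow 2 K 18]; ring
    have e2 : (n : ℝ) ≤ (2 * K) ^ n := by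
      have e3 : (n : ℝ) ≤ 2 ^ n := by exact_mod_cast Nat.lt_two_pow_self.le
      exact e3.trans (pow_le_pow_left₀ (by norm_num) (by linarith) n)
    rw [e1]
    calc (n : ℝ) * (2 * K) ^ (18 * n + 18) ≤ (2 * K) ^ n * (2 * K) ^ (18 * n + 18) :=
          mul_le_mul_of_nonneg_right e2 (by positivity)
      _ = (2 * K) ^ (n + (18 * n + 18)) := (pow_add _ _ _).symm
      _ ≤ (2 * K) ^ (37 * n) := pow_le_pow_right₀ h2K (by omega)
  calc (4685824 : ℝ) ^ d * M * K = (4685824 : ℝ) ^ d * (M * K) := by ring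
    _ ≤ (2 * K) ^ (304 * n) * (2 * K) ^ (37 * n) :=
      mul_le_mul hd1 hMK (by positivity) (by positivity)
    _ = (2 * K) ^ (341 * n) := by rw [← pow_add]; congr 1; omega

/-- Q1 for torsion-free groups -/
def TorsionFreeQ1 : Prop := ∃ C : ℝ, ∀ (Z : Type) [AddCommGroup Z] [DecidableEq Z],
  (∀ (n : ℕ) (x : Z), n ≠ 0 → n • x = 0 → x = 0) →
  ∀ (K : ℝ) (A : Finset Z), A.Nonempty → ((A + A).card : ℝ) ≤ K * A.card → Concl A K C

/-- Q1 for the homogeneous subsets of `ℤ ^ d` -/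
def HomogeneousQ1 : Prop := ∃ C : ℝ, ∀ (d : ℕ) (n : Fin d → ℕ) (K : ℝ) (B : Finset (Fin d → ℤ)),
  B.Nonempty → (∀ b ∈ B, ∀ k, (fibre (coord d) B b k).card = n k) →
    ((B + B).card : ℝ) ≤ K * B.card → Concl B K C

theorem tf_iff : TorsionFreeQ1 ↔ HomogeneousQ1 := by
  constructor
  · rintro ⟨C, h⟩
    refine ⟨C, fun d n K B hB _ hBB => h (Fin d → ℤ) ?_ K B hB hBB⟩
    intro n x hn hx
    funext k
    have := congrFun hx k
    simpa [hn] using this
  · rintro ⟨C, h⟩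
    obtain ⟨D, hD⟩ := up C
    refine ⟨D, fun Z _ _ htf K A hA hAA => ?_⟩
    obtain ⟨d, ψ, hψ, A', rfl⟩ := exists_coords htf A
    apply concl_image ψ hψ
    have hA' : A'.Nonempty := image_nonempty.1 hA
    have hAA' : ((A' + A').card : ℝ) ≤ K * A'.card := by
      have h1 : A'.image ψ + A'.image ψ = (A' + A').image ψ := (image_add ψ).symm
      rwa [h1, card_image_of_injective _ hψ, card_image_of_injective _ hψ] at hAA
    obtain ⟨B, hBA, n, m, hB, h3, -, h4, h5⟩ := exists_gen (coord d) A' hA' K hAA'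
    exact hD K A' B hA' hAA' hBA hB h4 (h d n _ B hB h3 h5)

/-- the `k`-th coordinate of `ℤ ^ d × N` -/
def coordN (N : Type) [AddCommGroup N] (d : ℕ) (k : Fin d) : (Fin d → ℤ) × N →+ ℤ :=
  (Pi.evalAddMonoidHom (fun _ => ℤ) k).comp (AddMonoidHom.fst (Fin d → ℤ) N)

/-- Q1 for the homogeneous subsets of `ℤ ^ d × N`, `N` finite -/
def HomogeneousGenQ1 : Prop := ∃ C : ℝ, ∀ (N : Type) [AddCommGroup N] [Finite N] [DecidableEq N]
  (d : ℕ) (n : Fin d → ℕ) (m : ℕ) (K : ℝ) (B : Finset ((Fin d → ℤ) × N)),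
  B.Nonempty → (∀ b ∈ B, ∀ k, (fibre (coordN N d) B b k).card = n k) →
    (∀ b ∈ B, (kfib (coordN N d) B b).card = m) →
    ((B + B).card : ℝ) ≤ K * B.card → Concl B K C

theorem exists_coordsN {Z : Type} [AddCommGroup Z] [DecidableEq Z] (A : Finset Z) :
    ∃ (d : ℕ) (N : Type) (_ : AddCommGroup N) (_ : Finite N) (_ : DecidableEq N)
      (ψ : (Fin d → ℤ) × N →+ Z), Function.Injective ψ ∧
      ∃ A' : Finset ((Fin d → ℤ) × N), A'.image ψ = A := by
  classical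
  obtain ⟨M, hM⟩ : ∃ M : AddSubgroup Z, M = AddSubgroup.closure (A : Set Z) := ⟨_, rfl⟩
  have hfg : AddGroup.FG M := by
    rw [AddGroup.fg_iff_addSubgroup_fg]
    exact ⟨A, hM.symm⟩
  obtain ⟨d, ι, _, p, hp, e, ⟨f⟩⟩ := AddCommGroup.equiv_free_prod_directSum_zmod M
  have hne : ∀ i, NeZero (p i ^ e i) := fun i => ⟨pow_ne_zero _ (hp i).ne_zero⟩
  have hfin : Finite ((i : ι) → ZMod (p i ^ e i)) := by
    have : ∀ i, Finite (ZMod (p i ^ e i)) := fun i => by
      have := hne i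
      infer_instance
    infer_instance
  let g : M ≃+ (Fin d → ℤ) × ((i : ι) → ZMod (p i ^ e i)) :=
    f.trans (AddEquiv.prodCongr Finsupp.addEquivFunOnFinite (DirectSum.addEquivProd _))
  let ψ : (Fin d → ℤ) × ((i : ι) → ZMod (p i ^ e i)) →+ Z := M.subtype.comp g.symm.toAddMonoidHom
  have hψ : Function.Injective ψ := by
    intro x y h
    have h1 : M.subtype (g.symm x) = M.subtype (g.symm y) := h
    exact g.symm.injective (Subtype.coe_injective h1)
  refine ⟨d, (i : ι) → ZMod (p i ^ e i), inferInstance, hfin, Classical.decEq _, ψ, hψ,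
    A.preimage ψ hψ.injOn, ?_⟩
  rw [image_preimage]
  refine filter_true_of_mem (fun x hx => ?_)
  have hx' : x ∈ M := by rw [hM]; exact AddSubgroup.subset_closure hx
  refine ⟨g ⟨x, hx'⟩, ?_⟩
  change M.subtype (g.symm (g ⟨x, hx'⟩)) = x
  rw [g.symm_apply_apply]
  rfl

theorem gen_iff : PFR.{0} ↔ HomogeneousGenQ1 := by
  constructor
  · rintro ⟨C, h⟩
    exact ⟨C, fun N _ _ _ d n m K B hB _ _ hBB => h _ K B hB hBB⟩
  · rintro ⟨C, h⟩
    obtain ⟨D, hD⟩ := up C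
    refine ⟨D, fun Z _ _ K A hA hAA => ?_⟩
    obtain ⟨d, N, _, _, _, ψ, hψ, A', rfl⟩ := exists_coordsN A
    apply concl_image ψ hψ
    have hA' : A'.Nonempty := image_nonempty.1 hA
    have hAA' : ((A' + A').card : ℝ) ≤ K * A'.card := by
      have h1 : A'.image ψ + A'.image ψ = (A' + A').image ψ := (image_add ψ).symm
      rwa [h1, card_image_of_injective _ hψ, card_image_of_injective _ hψ] at hAA
    obtain ⟨B, hBA, n, m, hB, h3, h3', h4, h5⟩ := exists_gen (coordN N d) A' hA' K hAA'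
    exact hD K A' B hA' hAA' hBA hB h4 (h N d n m _ B hB h3 h3' h5)

end Q239.RT
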