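import Pool.Agent.Q239.RT.Equiv

/-!
# Homogeneous subsets of the standard basis
-/

set_option autoImplicit false

namespace Q239.RT

open Finset
open scoped Pointwise

theorem sharp (d : ℕ) (_hd : 1 ≤ d) : ∃ A : Finset (Fin d → ℤ), A.card = d ∧
    ((A + A).card : ℝ) ≤ ((d : ℝ) + 1) / 2 * A.card ∧
    ∀ B ⊆ A, ∀ n : Fin d → ℕ, B.Nonempty → (∀ b ∈ B, ∀ k, (fibre (coord d) B b k).card = n k) →
      B.card ≤ 2 := by
  set e : Fin d → (Fin d → ℤ) := fun i => Pi.single i 1 with he
  have hinj : Function.Injective e := by
    intro i j h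
    by_contra hij
    have := congrFun h i
    simp [he, Pi.single_apply, hij] at this
  set A : Finset (Fin d → ℤ) := univ.image e with hA
  have hcard : A.card = d := by rw [hA, card_image_of_injective _ hinj]; simp
  refine ⟨A, hcard, ?_, ?_⟩
  · have h1 : A + A ⊆ (univ : Finset (Sym2 (Fin d))).image
        (Sym2.lift ⟨fun i j => e i + e j, fun i j => add_comm _ _⟩) := by
      intro x hx
      obtain ⟨a, ha, b, hb, rfl⟩ := mem_add.1 hx
      obtain ⟨i, _, rfl⟩ := mem_image.1 ha
      obtain ⟨j, _, rfl⟩ := mem_image.1 hb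
      exact mem_image.2 ⟨s(i, j), mem_univ _, by simp⟩
    have h2 := (card_le_card h1).trans card_image_le
    rw [card_univ, Sym2.card, Fintype.card_fin] at h2
    have h3 : (((d + 1).choose 2 : ℕ) : ℝ) = ((d : ℝ) + 1) * d / 2 := by
      rw [Nat.cast_choose_two]
      push_cast; ring
    have h4 : ((A + A).card : ℝ) ≤ (((d + 1).choose 2 : ℕ) : ℝ) := Nat.cast_le.2 h2
    rw [h3] at h4
    rw [hcard]
    linarith
  · intro B hBA n hB h
    have h2 := (rigid (coord d) (fun x hx => funext hx) B n hB h).1
    set I : Finset (Fin d) := univ.filter (fun i => e i ∈ B) with hI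
    have hIne : I.Nonempty := by
      obtain ⟨b, hb⟩ := hB
      obtain ⟨i, _, rfl⟩ := mem_image.1 (hBA hb)
      exact ⟨i, mem_filter.2 ⟨mem_univ _, hb⟩⟩
    set i0 := I.min' hIne with hi0
    have hi0B : e i0 ∈ B := (mem_filter.1 (I.min'_mem hIne)).2
    have hmin : ∀ i, e i ∈ B → i0 ≤ i := fun i hi => I.min'_le i (mem_filter.2 ⟨mem_univ _, hi⟩)
    have hn : ∀ k, n k ≤ if k = i0 then 2 else 1 := by
      intro k
      rw [← h _ hi0B k]
      split_ifs with hk
      · have h3 : fibre (coord d) B (e i0) k ⊆ {0, 1} := by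
          intro z hz
          obtain ⟨x, hx, rfl⟩ := mem_image.1 hz
          obtain ⟨i, _, rfl⟩ := mem_image.1 (hBA (mem_filter.1 hx).1)
          change e i k ∈ ({0, 1} : Finset ℤ)
          simp only [he, Pi.single_apply, mem_insert, mem_singleton]
          split_ifs <;> simp
        exact (card_le_card h3).trans card_le_two
      · have h3 : fibre (coord d) B (e i0) k ⊆ {0} := by
          intro z hz
          obtain ⟨x, hx, rfl⟩ := mem_image.1 hz
          obtain ⟨hxB, hx2⟩ := mem_filter.1 hx
          obtain ⟨i, _, rfl⟩ := mem_image.1 (hBA hxB)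
          change e i k ∈ ({0} : Finset ℤ)
          rw [mem_singleton]
          rcases lt_or_gt_of_ne hk with hlt | hgt
          · have := hmin i hxB
            have hik : k ≠ i := fun hc => by
              rw [hc] at hlt; exact absurd this (not_le.2 hlt)
            simp [he, Pi.single_apply, hik]
          · have h5 : e i i0 = e i0 i0 := hx2 i0 hgt
            have hii : i0 = i := by
              by_contra hc
              simp [he, Pi.single_apply, hc] at h5
            subst hii
            simp [he, Pi.single_apply, hk]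
        simpa using card_le_card h3
    rw [h2]
    calc ∏ k, n k ≤ ∏ k, (if k = i0 then 2 else 1) := prod_le_prod' (fun k _ => hn k)
      _ = 2 := by simp

end Q239.RT
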