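import Pool.Agent.Q239.RT.Fun

/-!
# The shape of a finite set of `d`-tuples

`Dset d A` is the set of all `n` such that `A` contains a regular tree with `n k + 1` branches at
each node of level `k`.  It is a down-set with `|A|` elements, and `Dset A + Dset B ⊆ Dset (A + B)`
for tuples of elements of a torsion-free group.
-/

set_option autoImplicit false

namespace Q239.RT

open Finset
open scoped Pointwise

section slice

variable {α : Type*} [DecidableEq α] {d : ℕ}

/-- the slice of `A` at the first coordinate `c` -/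
def slice (A : Finset (Fin (d+1) → α)) (c : α) : Finset (Fin d → α) :=
  (A.filter (fun x => x 0 = c)).image Fin.tail

theorem mem_slice (A : Finset (Fin (d+1) → α)) (c : α) (a : Fin d → α) :
    a ∈ slice A c ↔ (Fin.cons c a : Fin (d+1) → α) ∈ A := by
  simp only [slice, mem_image, mem_filter]
  constructor
  · rintro ⟨x, ⟨hx, rfl⟩, rfl⟩
    rwa [Fin.cons_self_tail]
  · intro h
    exact ⟨Fin.cons c a, ⟨h, rfl⟩, Fin.tail_cons _ _⟩

theorem card_slice (A : Finset (Fin (d+1) → α)) (c : α) :
    (slice A c).card = (A.filter (fun x => x 0 = c)).card := by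
  apply card_image_of_injOn
  intro x hx y hy h
  replace hx := mem_filter.1 (mem_coe.1 hx)
  replace hy := mem_filter.1 (mem_coe.1 hy)
  rw [← Fin.cons_self_tail x, ← Fin.cons_self_tail y, hx.2, hy.2]
  congr 1

theorem sum_card_slice (A : Finset (Fin (d+1) → α)) (T : Finset α)
    (hT : ∀ x ∈ A, x 0 ∈ T) : ∑ c ∈ T, (slice A c).card = A.card := by
  rw [card_eq_sum_card_fiberwise (f := fun x => x 0) (t := T) (fun x hx => hT x hx)]
  exact sum_congr rfl (fun c _ => card_slice A c)

theorem slice_nonempty (A : Finset (Fin (d+1) → α)) (c : α) (hc : c ∈ A.image (fun x => x 0)) :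
    (slice A c).Nonempty := by
  obtain ⟨x, hx, rfl⟩ := mem_image.1 hc
  exact ⟨Fin.tail x, by rw [mem_slice, Fin.cons_self_tail]; exact hx⟩

end slice

section shape

variable {Γ : Type*} [DecidableEq Γ]

/-- the shape of `A` -/
def Dset : (d : ℕ) → Finset (Fin d → Γ) → Finset (Fin d → ℕ)
  | 0, A => A.image (fun _ => Fin.elim0)
  | d+1, A => ((A.image (fun x => x 0)).biUnion (fun c => Dset d (slice A c))).biUnion
      (fun n' => (range (((A.image (fun x => x 0)).filter
        (fun c => n' ∈ Dset d (slice A c))).card)).image (fun j => (Fin.cons j n' : Fin (d+1) → ℕ)))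

/-- the elements of the first level below which `n'` is realised -/
def lev (d : ℕ) (A : Finset (Fin (d+1) → Γ)) (n' : Fin d → ℕ) : Finset Γ :=
  (A.image (fun x => x 0)).filter (fun c => n' ∈ Dset d (slice A c))

theorem Dset_zero (A : Finset (Fin 0 → Γ)) (n : Fin 0 → ℕ) : n ∈ Dset 0 A ↔ A.Nonempty := by
  simp only [Dset, mem_image]
  constructor
  · rintro ⟨x, hx, _⟩; exact ⟨x, hx⟩
  · rintro ⟨x, hx⟩; exact ⟨x, hx, Subsingleton.elim _ _⟩

theorem Dset_succ (d : ℕ) (A : Finset (Fin (d+1) → Γ)) (n : Fin (d+1) → ℕ) :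
    n ∈ Dset (d+1) A ↔ n 0 < (lev d A (Fin.tail n)).card := by
  simp only [Dset, mem_biUnion, mem_image, mem_range, lev]
  constructor
  · rintro ⟨n', _, j, hj, rfl⟩
    simpa using hj
  · intro h
    have h1 : 0 < (lev d A (Fin.tail n)).card := lt_of_le_of_lt (Nat.zero_le _) h
    obtain ⟨c, hc⟩ := card_pos.1 h1
    simp only [lev, mem_filter, mem_image] at hc
    obtain ⟨⟨x, hx, hxc⟩, hc2⟩ := hc
    exact ⟨Fin.tail n, ⟨c, ⟨x, hx, hxc⟩, hc2⟩, n 0, h, Fin.cons_self_tail n⟩

theorem card_Dset (d : ℕ) : ∀ A : Finset (Fin d → Γ), (Dset d A).card = A.card := by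
  induction d with
  | zero =>
    intro A
    rcases A.eq_empty_or_nonempty with rfl | h
    · simp [Dset]
    · have h1 : (Dset 0 A) = univ := by
        ext n
        simp only [Dset_zero, h, mem_univ]
      have h2 : A = univ := by
        ext x
        obtain ⟨y, hy⟩ := h
        simp only [mem_univ, iff_true]
        rwa [Subsingleton.elim x y]
      rw [h1, h2]
      simp
  | succ d ih =>
    intro A
    set C := A.image (fun x => x 0) with hC
    set U := C.biUnion (fun c => Dset d (slice A c)) with hU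
    have h1 : (Dset (d+1) A).card = ∑ n' ∈ U, (lev d A n').card := by
      rw [Dset, card_biUnion]
      · apply sum_congr rfl
        intro n' _
        rw [card_image_of_injective, card_range]
        · rfl
        · intro a b hab
          exact (Fin.cons_inj.1 hab).1
      · intro n' _ m' _ hnm
        rw [Function.onFun, disjoint_left]
        intro x hx hy
        simp only [mem_image] at hx hy
        obtain ⟨a, _, rfl⟩ := hx
        obtain ⟨b, _, hb⟩ := hy
        exact hnm (Fin.cons_inj.1 hb).2.symm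
    have h2 : ∀ n' ∈ U, (lev d A n').card = ∑ c ∈ C, if n' ∈ Dset d (slice A c) then 1 else 0 := by
      intro n' _
      rw [lev, card_filter]
    rw [h1, sum_congr rfl h2, sum_comm]
    have h3 : ∀ c ∈ C, (∑ n' ∈ U, if n' ∈ Dset d (slice A c) then 1 else 0) =
        (slice A c).card := by
      intro c hc
      rw [← card_filter, ← ih (slice A c)]
      congr 1
      ext n'
      simp only [mem_filter, hU, mem_biUnion]
      constructor
      · rintro ⟨_, h⟩; exact h
      · intro h; exact ⟨⟨c, hc, h⟩, h⟩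
    rw [sum_congr rfl h3]
    exact sum_card_slice A C (fun x hx => mem_image_of_mem _ hx)

theorem slice_mono {d : ℕ} {A B : Finset (Fin (d+1) → Γ)} (h : A ⊆ B) (c : Γ) :
    slice A c ⊆ slice B c := by
  intro a ha
  rw [mem_slice] at ha ⊢
  exact h ha

theorem Dset_mono (d : ℕ) : ∀ {A B : Finset (Fin d → Γ)}, A ⊆ B → Dset d A ⊆ Dset d B := by
  induction d with
  | zero =>
    intro A B h n hn
    rw [Dset_zero] at hn ⊢
    exact hn.mono h
  | succ d ih =>
    intro A B h n hn
    rw [Dset_succ] at hn ⊢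
    refine lt_of_lt_of_le hn (card_le_card ?_)
    intro c hc
    simp only [lev, mem_filter] at hc ⊢
    exact ⟨image_subset_image h hc.1, ih (slice_mono h c) hc.2⟩

theorem Dset_down (d : ℕ) : ∀ (A : Finset (Fin d → Γ)) (n m : Fin d → ℕ), n ∈ Dset d A →
    (∀ k, m k ≤ n k) → m ∈ Dset d A := by
  induction d with
  | zero =>
    intro A n m hn _
    rw [Dset_zero] at hn ⊢
    exact hn
  | succ d ih =>
    intro A n m hn hm
    rw [Dset_succ] at hn ⊢
    refine lt_of_le_of_lt (hm 0) (lt_of_lt_of_le hn (card_le_card ?_))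
    intro c hc
    simp only [lev, mem_filter] at hc ⊢
    exact ⟨hc.1, ih _ _ _ hc.2 (fun k => hm k.succ)⟩

theorem Dset_add {Γ : Type*} [DecidableEq Γ] [AddCommGroup Γ] [IsAddTorsionFree Γ] (d : ℕ) :
    ∀ (A B : Finset (Fin d → Γ)) (n m : Fin d → ℕ), n ∈ Dset d A → m ∈ Dset d B →
      n + m ∈ Dset d (A + B) := by
  induction d with
  | zero =>
    intro A B n m hn hm
    rw [Dset_zero] at hn hm ⊢
    exact hn.add hm
  | succ d ih =>
    intro A B n m hn hm
    rw [Dset_succ] at hn hm ⊢
    have hs : (lev d A (Fin.tail n)).Nonempty := card_pos.1 (lt_of_le_of_lt (Nat.zero_le _) hn)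
    have ht : (lev d B (Fin.tail m)).Nonempty := card_pos.1 (lt_of_le_of_lt (Nat.zero_le _) hm)
    have h1 := cauchy_davenport_of_isAddTorsionFree hs ht
    have h2 : lev d A (Fin.tail n) + lev d B (Fin.tail m) ⊆ lev d (A + B) (Fin.tail (n + m)) := by
      intro s hs
      obtain ⟨c, hc, e, he, rfl⟩ := mem_add.1 hs
      simp only [lev, mem_filter, mem_image] at hc he ⊢
      obtain ⟨⟨x, hx, rfl⟩, hc2⟩ := hc
      obtain ⟨⟨y, hy, rfl⟩, he2⟩ := he
      refine ⟨⟨x + y, add_mem_add hx hy, rfl⟩, ?_⟩
      have h3 := ih _ _ _ _ hc2 he2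
      refine Dset_mono d ?_ h3
      intro a ha
      obtain ⟨p, hp, q, hq, rfl⟩ := mem_add.1 ha
      rw [mem_slice] at hp hq ⊢
      have h4 := add_mem_add hp hq
      have h5 : (Fin.cons (x 0) p : Fin (d+1) → Γ) + Fin.cons (y 0) q =
          Fin.cons (x 0 + y 0) (p + q) := by
        funext k
        refine Fin.cases ?_ (fun k => ?_) k <;> simp
      rw [h5] at h4
      exact h4
    have h3 := card_le_card h2
    have h4 : (n + m) 0 = n 0 + m 0 := rfl
    rw [h4]
    omega

end shape

end Q239.RT
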